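import Mathlib
import Pool.Agent.MP_60c1b5_an.H73.Rel

set_option autoImplicit false

/-!
The Subspace Theorem with independent bases at the three places `∞`, `2`, `3`, along an
arbitrary scale.
-/

namespace Pool.Agent.MP_1e211b_nt.H73

open Real Filter Submodule Module Pool.Agent.MP_60c1b5_an.H73

theorem seqm (r b K : ℕ) (L : Matrix (Fin r) (Fin r) ℚ) (ε : ℝ) (hb : 2 ≤ b) (hL : L.det ≠ 0)
    (hε : 0 < ε) (U : Ultrafilter ℕ) (m : ℕ → ℕ) (hm : Tendsto m U atTop) (x : ℕ → Fin r → ℤ)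
    (ℓ : ℕ → Fin r → ℝ) (d : ℕ → Fin r → ℕ)
    (h : ∀ᶠ n in (U : Filter ℕ), (∀ i, |((∑ j, L i j * x n j : ℚ) : ℝ)| ≤ ℓ n i ∧ 0 < ℓ n i ∧
      |log (ℓ n i)| ≤ K * m n ∧ (d n i : ℤ) ∣ x n i ∧ d n i ∣ b ^ (K * m n)) ∧
      (∏ i, ℓ n i) * exp (ε * m n) ≤ ∏ i, (d n i : ℝ)) :
    ∃ w : Fin r → ℤ, w ≠ 0 ∧ ∀ᶠ n in (U : Filter ℕ), ∑ i, w i * x n i = 0 := by
  classical
  by_contra hcon
  obtain ⟨en, hen⟩ := exists_surjective_nat (Fin r → ℤ)
  obtain ⟨G, hG, hGU⟩ : ∃ G : ℕ → Prop, (∀ n, G n → (∀ i, |((∑ j, L i j * x n j : ℚ) : ℝ)| ≤ ℓ n i ∧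
      0 < ℓ n i ∧ |log (ℓ n i)| ≤ K * m n ∧ (d n i : ℤ) ∣ x n i ∧ d n i ∣ b ^ (K * m n)) ∧
      (∏ i, ℓ n i) * exp (ε * m n) ≤ ∏ i, (d n i : ℝ)) ∧ ∀ᶠ n in (U : Filter ℕ), G n :=
    ⟨_, fun _ h => h, h⟩
  set Q : ℕ → ℕ → Prop := fun k n => G n ∧ ∀ j ≤ k, en j ≠ 0 → ∑ i, en j i * x n i ≠ 0 with hQ
  have h1 : ∀ k, ∃ n, Q k n ∧ k ≤ m n := by
    intro k
    have : ∀ᶠ n in (U : Filter ℕ), ∀ j ∈ Finset.range (k + 1),
        en j ≠ 0 → ∑ i, en j i * x n i ≠ 0 := by
      rw [eventually_all_finset]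
      intro j _
      by_cases e : en j = 0
      · exact Eventually.of_forall fun _ h => absurd e h
      · filter_upwards [Ultrafilter.eventually_not.2 fun h => hcon ⟨en j, e, h⟩] with n hn _
        exact hn
    obtain ⟨n, a1, a2, a3⟩ := (hGU.and (this.and (hm.eventually_ge_atTop k))).exists
    exact ⟨n, ⟨a1, fun j hj => a2 j (Finset.mem_range.2 (by omega))⟩, a3⟩
  choose nk hnk using h1
  have h2 : ∀ μ, ∃ n, ∀ k ≤ μ, (∃ n, Q k n ∧ m n = μ) → Q k n ∧ m n = μ := by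
    intro μ
    by_cases e : ∃ n, Q (Nat.findGreatest (fun k => ∃ n, Q k n ∧ m n = μ) μ) n ∧ m n = μ
    · obtain ⟨n, hn⟩ := e
      exact ⟨n, fun k hk hk' => ⟨⟨hn.1.1, fun j hj => hn.1.2 j
        (hj.trans (Nat.le_findGreatest hk hk'))⟩, hn.2⟩⟩
    · exact ⟨0, fun k hk hk' => absurd
        (Nat.findGreatest_spec (P := fun k => ∃ n, Q k n ∧ m n = μ) hk hk') e⟩
  choose s hs using h2
  obtain ⟨U', hU'⟩ := Ultrafilter.exists_le (map (fun k => m (nk k)) atTop)
  have h3 : ∀ j, ∀ᶠ μ in (U' : Filter ℕ), Q j (s μ) ∧ m (s μ) = μ := by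
    intro j
    refine hU' (eventually_map.2 ?_)
    filter_upwards [eventually_ge_atTop j] with k hk
    have := hs _ k (hnk k).2 ⟨_, (hnk k).1, rfl⟩
    exact ⟨⟨this.1.1, fun i hi => this.1.2 i (hi.trans hk)⟩, this.2⟩
  obtain ⟨w, hw0, hw⟩ := Pool.Agent.MP_077ac3_nt.H18.seq r b K
    ((algebraMap ℚ ℝ).mapMatrix L) ε hb (fun a c => isAlgebraic_algebraMap (L a c))
    (by
      rw [← RingHom.map_det]
      exact (map_ne_zero _).2 hL)
    hε U' (hU'.trans (tendsto_atTop_mono (fun k => (hnk k).2) tendsto_id))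
    (fun μ => x (s μ)) (fun μ => ℓ (s μ)) (fun μ => d (s μ)) (by
      filter_upwards [h3 0] with μ hμ
      have := hG _ hμ.1.1
      rw [hμ.2] at this
      simpa only [RingHom.mapMatrix_apply, Matrix.map_apply, eq_ratCast, Rat.cast_sum,
        Rat.cast_mul, Rat.cast_intCast] using this)
  obtain ⟨j, rfl⟩ := hen w
  obtain ⟨μ, a1, a2⟩ := ((h3 j).and hw).exists
  exact a1.1.2 j le_rfl hw0 a2

theorem seq2 (r b K : ℕ) (hb : 2 ≤ b) (ε : ℝ) (hε : 0 < ε) (U : Ultrafilter ℕ) (m : ℕ → ℕ)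
    (hm : Tendsto m U atTop) (X X' : ℕ → Fin r → ℤ) (ℓ : ℕ → Fin r → ℝ) (d : ℕ → Fin r → ℕ)
    (hX : LinearIndependent ℚ (cls U X)) (hX' : LinearIndependent ℚ (cls U X'))
    (hsp : ∀ a, cls U X' a ∈ span ℚ (Set.range (cls U X)))
    (h : ∀ᶠ n in (U : Filter ℕ), ∀ i, |(X' n i : ℝ)| ≤ ℓ n i ∧ 0 < ℓ n i ∧
      |log (ℓ n i)| ≤ K * m n ∧ (d n i : ℤ) ∣ X n i ∧ d n i ∣ b ^ (K * m n)) :
    ∀ᶠ n in (U : Filter ℕ), ∏ i, (d n i : ℝ) < (∏ i, ℓ n i) * exp (ε * m n) := by
  simp only [← not_le]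
  rw [Ultrafilter.eventually_not]
  intro hcon
  obtain ⟨L, hL0, hL⟩ := exists_matrix' _ _ hX' hsp
  have hLm : ∀ᶠ n in (U : Filter ℕ), ∀ a, ∑ c, L a c * X n c = X' n a := by
    refine eventually_all.2 fun a => ?_
    have h1 := hL a
    simp only [cls] at h1
    rw [sum_mk] at h1
    exact (mk_eq_iff _ _ _).1 h1
  obtain ⟨w, hw0, hw⟩ := seqm r b K L ε hb hL0 hε U m hm X ℓ d (by
    filter_upwards [h, hLm, hcon] with n h1 h2 h3
    refine ⟨fun a => ?_, h3⟩
    rw [h2, Rat.cast_intCast]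
    exact h1 a)
  have h1 := Fintype.linearIndependent_iff.1 hX (fun c => (w c : ℚ)) (by
    simp only [cls]
    rw [sum_mk, ← map_zero (nullSeq U).mkQ, mk_eq_iff]
    filter_upwards [hw] with n hn
    rw [Pi.zero_apply]
    exact_mod_cast hn)
  apply hw0
  funext c
  exact_mod_cast h1 c

/-- `P` indexes a basis of the span of the family `v` -/
def IsB {ι V : Type} [AddCommGroup V] [Module ℚ V] (v : ι → V) (P : Finset ι) : Prop :=
  LinearIndepOn ℚ v (P : Set ι) ∧ ∀ α, v α ∈ span ℚ (v '' (P : Set ι))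

theorem IsB.span_eq {ι V : Type} [AddCommGroup V] [Module ℚ V] {v : ι → V} {P : Finset ι}
    (h : IsB v P) : span ℚ (Set.range fun α : P => v α) = span ℚ (Set.range v) := by
  refine le_antisymm (span_mono ?_) (span_le.2 (Set.range_subset_iff.2 fun α => ?_))
  · rintro _ ⟨α, rfl⟩
    exact ⟨α, rfl⟩
  · have := h.2 α
    rwa [Set.image_eq_range] at this

theorem IsB.card {ι V : Type} [AddCommGroup V] [Module ℚ V] {v : ι → V} {P : Finset ι}
    (h : IsB v P) : P.card = finrank ℚ (span ℚ (Set.range v)) := by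
  rw [← h.span_eq, ← Fintype.card_coe]
  exact (finrank_span_eq_card (b := fun α : P => v α) h.1).symm

theorem common_basis {ι V : Type} [DecidableEq ι] [AddCommGroup V] [Module ℚ V] (v : ι → V)
    (P Q : Finset ι) (hP : IsB v P) (hQ : IsB v Q) (ν : P → ℕ) (ν' : Q → ℕ)
    (hν : Function.Injective ν) :
    ∃ (y : Fin P.card → P → ℤ) (y' : Fin P.card → Q → ℤ) (l : Fin P.card ≃ P) (t : Fin P.card ≃ Q),
      (LinearIndependent ℚ fun i => ∑ α, (y i α : ℚ) • v α) ∧ ∀ i,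
        ∑ α, (y i α : ℚ) • v α = ∑ β, (y' i β : ℚ) • v β ∧ (∀ α, y i α ≠ 0 → ν α ≤ ν (l i)) ∧
          ∀ β, y' i β ≠ 0 → ν' β ≤ ν' (t i) := by
  set u : P ⊕ Q → V := Sum.elim (fun α => v α) fun β => -v β with hu
  have hc : Q.card = P.card := hQ.card.trans hP.card.symm
  have h1 := LinearMap.finrank_range_add_finrank_ker (Fintype.linearCombination ℚ u)
  have h2 : span ℚ (Set.range u) = span ℚ (Set.range v) := by
    refine le_antisymm (span_le.2 ?_) (hP.span_eq ▸ span_mono ?_)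
    · rintro _ ⟨α | β, rfl⟩
      · exact subset_span ⟨α, rfl⟩
      · exact neg_mem (subset_span ⟨β, rfl⟩)
    · rintro _ ⟨α, rfl⟩
      exact ⟨Sum.inl α, rfl⟩
  rw [Fintype.range_linearCombination, h2, ← hP.card, Module.finrank_fintype_fun_eq_card,
    Fintype.card_sum, Fintype.card_coe, Fintype.card_coe, hc, add_right_inj] at h1
  obtain ⟨Y, l, t, hl, ht, hY⟩ := adapted
    (Sum.elim (fun α => ν α + Q.card) fun β => (Q.equivFin β : ℕ))
    (Sum.elim (fun _ => 0) fun β => ν' β + 1) (by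
      rintro (α | β) (α' | β') e <;> simp only [Sum.elim_inl, Sum.elim_inr] at e
      · rw [hν (by omega : ν α = ν α')]
      · have := (Q.equivFin β').2
        omega
      · have := (Q.equivFin β).2
        omega
      · rw [Q.equivFin.injective (Fin.ext e)]) _ _ h1
  have h3 : ∀ i, ∑ α, Y i (Sum.inl α) • v α = ∑ β, Y i (Sum.inr β) • v β := by
    intro i
    have := (hY i).1
    rw [LinearMap.mem_ker, Fintype.linearCombination_apply, Fintype.sum_sum_type] at this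
    simp only [hu, Sum.elim_inl, Sum.elim_inr, smul_neg, Finset.sum_neg_distrib] at this
    exact add_neg_eq_zero.1 this
  have iP := Fintype.linearIndependent_iff.1 hP.1
  have iQ := Fintype.linearIndependent_iff.1 hQ.1
  have h4 : ∀ i, ∃ α, l i = Sum.inl α := by
    intro i
    rcases e : l i with α | β
    · exact ⟨α, rfl⟩
    · exfalso
      have a1 : ∀ α, Y i (Sum.inl α) = 0 := by
        intro α
        by_contra h
        have := ((hY i).2.2.2 _ h).1
        have := (Q.equivFin β).2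
        simp only [e, Sum.elim_inl, Sum.elim_inr] at *
        omega
      have a2 := h3 i
      simp only [a1, zero_smul, Finset.sum_const_zero] at a2
      exact (hY i).2.1 (e ▸ iQ _ a2.symm β)
  have h5 : ∀ i, ∃ β, t i = Sum.inr β := by
    intro i
    rcases e : t i with α | β
    · exfalso
      have a1 : ∀ β, Y i (Sum.inr β) = 0 := by
        intro β
        by_contra h
        have := ((hY i).2.2.2 _ h).2
        simp [e] at this
      have a2 := h3 i
      simp only [a1, zero_smul, Finset.sum_const_zero] at a2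
      exact (hY i).2.2.1 (e ▸ iP _ a2 α)
    · exact ⟨β, rfl⟩
  choose l' hl' using h4
  choose t' ht' using h5
  have il : Function.Injective l' := fun i j e => hl (by rw [hl', hl', e])
  have it : Function.Injective t' := fun i j e => ht (by rw [ht', ht', e])
  obtain ⟨c, hc'⟩ := IsLocalization.exist_integer_multiples_of_finite (nonZeroDivisors ℤ)
    fun p : Fin P.card × (P ⊕ Q) => Y p.1 p.2
  choose z hz using hc'
  have hc0 : ((c : ℤ) : ℚ) ≠ 0 := by exact_mod_cast nonZeroDivisors.coe_ne_zero c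
  have hz' : ∀ i α, (z (i, α) : ℚ) = (c : ℤ) * Y i α := fun i α => by simpa using hz (i, α)
  have hne : ∀ i α, z (i, α) ≠ 0 → Y i α ≠ 0 := by
    intro i α h e
    apply h
    rw [← Int.cast_eq_zero (α := ℚ), hz', e, mul_zero]
  have h6 : ∀ i α, Y i (Sum.inl α) ≠ 0 → ν α ≤ ν (l' i) := by
    intro i α h
    have := ((hY i).2.2.2 _ h).1
    simpa [hl'] using this
  refine ⟨fun i α => z (i, Sum.inl α), fun i β => z (i, Sum.inr β),
    Equiv.ofBijective l' ((Fintype.bijective_iff_injective_and_card _).2 ⟨il, by simp⟩),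
    Equiv.ofBijective t' ((Fintype.bijective_iff_injective_and_card _).2 ⟨it, by simp [hc]⟩), ?_,
    fun i => ⟨?_, fun α h => h6 i α (hne _ _ h), fun β h => ?_⟩⟩
  · rw [Fintype.linearIndependent_iff]
    intro k hk
    by_contra hcon
    push Not at hcon
    obtain ⟨i0, hi0⟩ := hcon
    obtain ⟨i, hi, hmax⟩ := Finset.exists_max_image (Finset.univ.filter fun i => k i ≠ 0)
      (fun i => ν (l' i)) ⟨i0, by simpa using hi0⟩
    simp only [Finset.smul_sum, smul_smul] at hk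
    rw [Finset.sum_comm] at hk
    simp only [← Finset.sum_smul] at hk
    have a1 := iP _ hk (l' i)
    rw [Finset.sum_eq_single i, hz'] at a1
    · refine mul_ne_zero (by simpa using hi) (mul_ne_zero hc0 ?_) a1
      rw [← hl']
      exact (hY i).2.1
    · intro j _ hj
      by_contra h
      have a2 := h6 j _ (hne _ _ (by exact_mod_cast right_ne_zero_of_mul h))
      have a3 := hmax j (by simpa using left_ne_zero_of_mul h)
      exact hj (il (hν (le_antisymm a3 a2)))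
    · simp
  · simp only [hz', mul_smul, ← Finset.smul_sum, h3]
  · have := ((hY i).2.2.2 _ (hne _ _ h)).2
    simpa [ht'] using this

theorem gl3 {ι : Type} [DecidableEq ι] (U : Ultrafilter ℕ) (m : ℕ → ℕ) (hm : Tendsto m U atTop)
    (K : ℕ) (x : ℕ → ι → ℤ) (ℓ : ℕ → ι → ℝ) (e2 e3 : ℕ → ι → ℕ)
    (h : ∀ᶠ n in (U : Filter ℕ), ∀ α, |(x n α : ℝ)| ≤ ℓ n α ∧ 0 < ℓ n α ∧
      |log (ℓ n α)| ≤ K * m n ∧ (2 : ℤ) ^ e2 n α ∣ x n α ∧ (3 : ℤ) ^ e3 n α ∣ x n α ∧
      e2 n α ≤ K * m n ∧ e3 n α ≤ K * m n)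
    (ε : ℝ) (hε : 0 < ε) (P P2 P3 : Finset ι) (hP : IsB (cls U x) P) (hP2 : IsB (cls U x) P2)
    (hP3 : IsB (cls U x) P3) :
    ∀ᶠ n in (U : Filter ℕ), (∏ α ∈ P2, (2 : ℝ) ^ e2 n α) * ∏ α ∈ P3, (3 : ℝ) ^ e3 n α <
      (∏ α ∈ P, ℓ n α) * exp (ε * m n) := by
  obtain ⟨ν, hν⟩ := Ultrafilter.eventually_exists_iff.1
    (Eventually.of_forall (f := (U : Filter ℕ)) fun n =>
      exists_rank fun α : P2 => OrderDual.toDual (e2 n α))
  obtain ⟨ν', hν'⟩ := Ultrafilter.eventually_exists_iff.1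
    (Eventually.of_forall (f := (U : Filter ℕ)) fun n =>
      exists_rank fun α : P3 => OrderDual.toDual (e3 n α))
  obtain ⟨y, y', l, t, hi, hy⟩ := common_basis (cls U x) P2 P3 hP2 hP3 (fun α => ν α)
    (fun α => ν' α) (Fin.val_injective.comp hν.exists.choose_spec.1)
  set X : ℕ → Fin P2.card → ℤ := fun n i => ∑ α, y i α * x n α with hX
  have hXc : cls U X = fun i => ∑ α, (y i α : ℚ) • cls U x α := by
    funext i
    simp only [cls, hX]
    rw [sum_mk]
    push_cast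
    rfl
  have hX' : ∀ᶠ n in (U : Filter ℕ), ∀ i, X n i = ∑ β, y' i β * x n β := by
    refine eventually_all.2 fun i => ?_
    have := (hy i).1
    simp only [cls] at this
    rw [sum_mk, sum_mk, mk_eq_iff] at this
    filter_upwards [this] with n hn
    simp only [hX]
    exact_mod_cast hn
  set e : Fin P2.card ≃ P := (Finset.equivFinOfCardEq (hP.card.trans hP2.card.symm)).symm
  have key := seq2 P2.card 6 K (by norm_num) ε hε U m hm X (fun n a => x n (e a))
    (fun n a => ℓ n (e a)) (fun n i => 2 ^ e2 n (l i) * 3 ^ e3 n (t i)) (hXc ▸ hi)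
    (hP.1.comp e e.injective) (by
      intro a
      have h1 : span ℚ (Set.range (cls U X)) = span ℚ (Set.range (cls U x)) := by
        have : FiniteDimensional ℚ (span ℚ (Set.range (cls U x))) :=
          hP2.span_eq ▸ FiniteDimensional.span_of_finite ℚ (Set.finite_range _)
        apply Submodule.eq_of_le_of_finrank_le
        · rw [hXc]
          exact span_le.2 (Set.range_subset_iff.2 fun i => sum_mem fun α _ =>
            smul_mem _ _ (subset_span ⟨α, rfl⟩))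
        · rw [← hP2.card, finrank_span_eq_card (hXc ▸ hi), Fintype.card_fin]
      rw [h1]
      exact subset_span ⟨e a, rfl⟩) (by
      filter_upwards [h, hν, hν', hX'] with n h1 h2 h3 h4 i
      refine ⟨(h1 _).1, (h1 _).2.1, (h1 _).2.2.1, ?_, ?_⟩
      · push_cast
        refine IsCoprime.mul_dvd (IsCoprime.pow (by decide : IsCoprime (2 : ℤ) 3)) ?_ ?_
        · refine Finset.dvd_sum fun α _ => ?_
          by_cases e : y i α = 0
          · simp [e]
          · exact Dvd.dvd.mul_left ((pow_dvd_pow _ (h2.2 _ _ ((hy i).2.1 α e))).trans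
              (h1 α).2.2.2.1) _
        · rw [h4]
          refine Finset.dvd_sum fun β _ => ?_
          by_cases e : y' i β = 0
          · simp [e]
          · exact Dvd.dvd.mul_left ((pow_dvd_pow _ (h3.2 _ _ ((hy i).2.2 β e))).trans
              (h1 β).2.2.2.2.1) _
      · rw [show (6 : ℕ) = 2 * 3 from rfl, mul_pow]
        exact mul_dvd_mul (pow_dvd_pow _ (h1 _).2.2.2.2.2.1) (pow_dvd_pow _ (h1 _).2.2.2.2.2.2))
  filter_upwards [key] with n hn
  push_cast at hn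
  rwa [Finset.prod_mul_distrib, l.prod_comp fun α : P2 => (2 : ℝ) ^ e2 n α,
    t.prod_comp fun α : P3 => (3 : ℝ) ^ e3 n α, e.prod_comp fun α : P => ℓ n α,
    Finset.prod_coe_sort P2 fun α => (2 : ℝ) ^ e2 n α,
    Finset.prod_coe_sort P3 fun α => (3 : ℝ) ^ e3 n α, Finset.prod_coe_sort P fun α => ℓ n α] at hn

end Pool.Agent.MP_1e211b_nt.H73
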