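import Mathlib
import Pool.Agent.MP_1e211b_nt.H73.Seq3

set_option autoImplicit false

/-!
Numbers `2 ^ x * 3 ^ y` whose exponents drift apart are linearly independent along an ultrafilter.
-/

namespace Pool.Agent.MP_1e211b_nt.H73

open Real Filter Submodule Module Pool.Agent.MP_60c1b5_an.H73

theorem isB_compl {ι J V β : Type} [Fintype ι] [DecidableEq ι] [Fintype J] [AddCommGroup V]
    [Module ℚ V] [LinearOrder β] (v : ι → V) (f : ι → β) (hf : Function.Injective f)
    (y : J → ι → ℚ) (l : J → ι) (hl : Function.Injective l)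
    (h : ∀ j, ∑ α, y j α • v α = 0 ∧ y j (l j) ≠ 0 ∧ ∀ α, y j α ≠ 0 → f α ≤ f (l j))
    (hk : ∀ c : ι → ℚ, ∑ α, c α • v α = 0 → c ∈ span ℚ (Set.range y)) :
    IsB v (Finset.univ.image l)ᶜ := by
  obtain ⟨ν, -, hν⟩ := exists_rank f
  set P : Finset ι := (Finset.univ.image l)ᶜ with hP
  have hsp : ∀ k α, (ν α : ℕ) = k → v α ∈ span ℚ (v '' (P : Set ι)) := by
    intro k
    induction k using Nat.strong_induction_on with
    | _ k ih =>
      intro α hα
      by_cases hm : α ∈ P
      · exact subset_span ⟨α, hm, rfl⟩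
      · obtain ⟨i, -, rfl⟩ := Finset.mem_image.1 (by simpa [hP] using hm :
          α ∈ Finset.univ.image l)
        obtain ⟨h1, h2, h3⟩ := h i
        rw [← Finset.add_sum_erase _ _ (Finset.mem_univ (l i))] at h1
        rw [← smul_mem_iff _ h2, eq_neg_of_add_eq_zero_left h1]
        refine neg_mem (sum_mem fun γ hγ => ?_)
        by_cases e : y i γ = 0
        · simp [e]
        · refine smul_mem _ _ (ih (ν γ) ?_ γ rfl)
          by_contra h4
          exact (Finset.mem_erase.1 hγ).1 (hf (le_antisymm (h3 γ e) (hν _ _ (by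
            rw [Fin.le_def]
            omega))))
  refine ⟨?_, fun α => hsp _ α rfl⟩
  have h1 := LinearMap.finrank_range_add_finrank_ker (Fintype.linearCombination ℚ v)
  rw [Fintype.range_linearCombination, Module.finrank_fintype_fun_eq_card] at h1
  have h2 : span ℚ (Set.range v) = span ℚ (v '' (P : Set ι)) :=
    le_antisymm (span_le.2 (Set.range_subset_iff.2 fun α => hsp _ α rfl))
      (span_mono (Set.image_subset_range _ _))
  have h3 : P.card + Fintype.card J = Fintype.card ι := by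
    rw [hP, Finset.card_compl, Finset.card_image_of_injective _ hl, Finset.card_univ]
    have := Fintype.card_le_of_injective l hl
    omega
  have h4 : finrank ℚ (LinearMap.ker (Fintype.linearCombination ℚ v)) ≤ Fintype.card J :=
    (Submodule.finrank_mono fun c hc => hk c hc).trans (finrank_range_le_card y)
  rw [LinearIndepOn, linearIndependent_iff_card_le_finrank_span, Set.finrank,
    ← Set.image_eq_range, ← h2]
  simp only [Finset.coe_sort_coe, Fintype.card_coe]
  omega

theorem gl4 {ι J : Type} [Fintype ι] [DecidableEq ι] [Fintype J] (U : Ultrafilter ℕ) (m : ℕ → ℕ)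
    (hm : Tendsto m U atTop) (K : ℕ) (u : ℕ → ι → ℤ) (ℓ : ℕ → ι → ℝ) (e2 e3 : ℕ → ι → ℕ)
    (h : ∀ᶠ n in (U : Filter ℕ), ∀ α, |(u n α : ℝ)| ≤ ℓ n α ∧ 1 ≤ ℓ n α ∧ ℓ n α ≤ exp (K * m n) ∧
      e2 n α ≤ K * m n ∧ e3 n α ≤ K * m n)
    (ε : ℝ) (hε : 0 < ε) (l l2 l3 : J → ι) (hl : Function.Injective l)
    (hl2 : Function.Injective l2) (hl3 : Function.Injective l3)
    (hP : IsB (cls U fun n α => u n α * (2 ^ e2 n α * 3 ^ e3 n α)) (Finset.univ.image l)ᶜ)
    (hP2 : IsB (cls U fun n α => u n α * (2 ^ e2 n α * 3 ^ e3 n α)) (Finset.univ.image l2)ᶜ)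
    (hP3 : IsB (cls U fun n α => u n α * (2 ^ e2 n α * 3 ^ e3 n α)) (Finset.univ.image l3)ᶜ) :
    ∀ᶠ n in (U : Filter ℕ), ∏ j, ℓ n (l j) * (2 ^ e2 n (l j) * 3 ^ e3 n (l j)) <
      (∏ α, ℓ n α) * exp (ε * m n) * ∏ j, (2 : ℝ) ^ e2 n (l2 j) * 3 ^ e3 n (l3 j) := by
  have key := gl3 U m hm (4 * K) _ (fun n α => ℓ n α * (2 ^ e2 n α * 3 ^ e3 n α)) e2 e3 (by
    filter_upwards [h] with n hn α
    obtain ⟨a1, a2, a3, a4, a5⟩ := hn α
    have a6 : (1 : ℝ) ≤ 2 ^ e2 n α * 3 ^ e3 n α :=
      one_le_mul_of_one_le_of_one_le (one_le_pow₀ (by norm_num)) (one_le_pow₀ (by norm_num))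
    refine ⟨?_, by positivity, ?_, (dvd_mul_right _ _).mul_left _, (dvd_mul_left _ _).mul_left _,
      by nlinarith, by nlinarith⟩
    · push_cast
      rw [abs_mul, abs_of_pos (zero_lt_one.trans_le a6)]
      gcongr
    · rw [abs_of_nonneg (log_nonneg (one_le_mul_of_one_le_of_one_le a2 a6)),
        log_mul (by positivity) (by positivity), log_mul (by positivity) (by positivity), log_pow,
        log_pow]
      have c1 : log (ℓ n α) ≤ K * m n := (log_le_iff_le_exp (by positivity)).2 a3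
      have c2 : log 2 ≤ 1 := (log_le_sub_one_of_pos (by norm_num)).trans (by norm_num)
      have c3 : log 3 ≤ 2 := (log_le_sub_one_of_pos (by norm_num)).trans (by norm_num)
      have c4 : (e2 n α : ℝ) ≤ K * m n := by exact_mod_cast a4
      have c5 : (e3 n α : ℝ) ≤ K * m n := by exact_mod_cast a5
      have c6 := mul_le_mul c4 c2 (log_nonneg (by norm_num)) (by positivity)
      have c7 := mul_le_mul c5 c3 (log_nonneg (by norm_num)) (by positivity)
      push_cast
      linarith) ε hε _ _ _ hP hP2 hP3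
  filter_upwards [key, h] with n hn h1
  have a1 := Finset.prod_mul_prod_compl (Finset.univ.image l)
    fun α => ℓ n α * ((2 : ℝ) ^ e2 n α * 3 ^ e3 n α)
  have a2 := Finset.prod_mul_prod_compl (Finset.univ.image l2) fun α => (2 : ℝ) ^ e2 n α
  have a3 := Finset.prod_mul_prod_compl (Finset.univ.image l3) fun α => (3 : ℝ) ^ e3 n α
  rw [Finset.prod_image hl.injOn] at a1
  rw [Finset.prod_image hl2.injOn] at a2
  rw [Finset.prod_image hl3.injOn] at a3
  rw [Finset.prod_mul_distrib (s := Finset.univ) (f := ℓ n), Finset.prod_mul_distrib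
    (s := Finset.univ) (f := fun α => (2 : ℝ) ^ e2 n α), ← a2, ← a3] at a1
  have p1 : 0 < ∏ j, ℓ n (l j) * ((2 : ℝ) ^ e2 n (l j) * 3 ^ e3 n (l j)) :=
    Finset.prod_pos fun j _ => mul_pos (zero_lt_one.trans_le (h1 _).2.1) (by positivity)
  have p2 : 0 < (∏ α ∈ (Finset.univ.image l2)ᶜ, (2 : ℝ) ^ e2 n α) *
    ∏ α ∈ (Finset.univ.image l3)ᶜ, (3 : ℝ) ^ e3 n α := by positivity
  rw [Finset.prod_mul_distrib (f := fun j => (2 : ℝ) ^ e2 n (l2 j))]
  refine lt_of_mul_lt_mul_right ?_ p2.le
  refine (mul_lt_mul_of_pos_left hn p1).trans_eq ?_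
  rw [← mul_assoc, a1]
  ring

theorem nv2 (U : Ultrafilter ℕ) (k : ℕ) : ∀ (A : Type) [Fintype A], Fintype.card A = k →
    ∀ x y : ℕ → A → ℤ, (∀ a a', a ≠ a' → ∀ C : ℤ, ∀ᶠ n in (U : Filter ℕ),
      C < |x n a - x n a'| + |y n a - y n a'|) → ∀ c : A → ℚ,
    (∀ᶠ n in (U : Filter ℕ), ∑ a, c a * (2 ^ x n a * 3 ^ y n a) = 0) → ∀ a, c a = 0 := by
  classical
  induction k using Nat.strong_induction_on with
  | _ k ih =>
  intro A _ hA x y hsep c hc
  rcases subsingleton_or_nontrivial A with hs | hs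
  · intro a
    obtain ⟨n, hn⟩ := hc.exists
    rw [Fintype.sum_subsingleton _ a] at hn
    exact (mul_eq_zero.1 hn).resolve_right (by positivity)
  choose a2 ha2 using fun n => Finite.exists_min (x n)
  choose a3 ha3 using fun n => Finite.exists_min (y n)
  set e2 : ℕ → A → ℕ := fun n a => (x n a - x n (a2 n)).toNat with he2
  set e3 : ℕ → A → ℕ := fun n a => (y n a - y n (a3 n)).toNat with he3
  have E2 : ∀ n a, (e2 n a : ℤ) = x n a - x n (a2 n) := fun n a =>
    Int.toNat_of_nonneg (sub_nonneg.2 (ha2 n a))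
  have E3 : ∀ n a, (e3 n a : ℤ) = y n a - y n (a3 n) := fun n a =>
    Int.toNat_of_nonneg (sub_nonneg.2 (ha3 n a))
  choose a1 ha1 using fun n => Finite.exists_max fun a => e2 n a + e3 n a
  set m : ℕ → ℕ := fun n => e2 n (a1 n) + e3 n (a1 n) with hm
  set v := cls U fun n a => (1 : ℤ) * (2 ^ e2 n a * 3 ^ e3 n a) with hv
  have hker : ∀ d : A → ℚ, ∑ a, d a • v a = 0 ↔
      ∀ᶠ n in (U : Filter ℕ), ∑ a, d a * (2 ^ x n a * 3 ^ y n a) = 0 := by
    intro d
    simp only [hv, cls]
    rw [sum_mk, ← map_zero (nullSeq U).mkQ, mk_eq_iff]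
    refine eventually_congr (Eventually.of_forall fun n => ?_)
    have : ∑ a, d a * (2 ^ x n a * 3 ^ y n a) = (2 ^ x n (a2 n) * 3 ^ y n (a3 n)) *
        ∑ a, d a * (((1 : ℤ) * (2 ^ e2 n a * 3 ^ e3 n a) : ℤ) : ℚ) := by
      rw [Finset.mul_sum]
      refine Finset.sum_congr rfl fun a _ => ?_
      push_cast
      rw [← zpow_natCast, ← zpow_natCast, E2, E3, zpow_sub₀ (by norm_num), zpow_sub₀ (by norm_num)]
      field_simp
    rw [this, Pi.zero_apply, mul_eq_zero, or_iff_right (by positivity)]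
  have hz : ∀ (b : A) (d : A → ℚ), ∑ a, d a • v a = 0 → d b = 0 → d = 0 := by
    intro b d hd h0
    funext a
    by_cases e : a = b
    · rw [e, h0, Pi.zero_apply]
    · refine ih _ (hA ▸ Fintype.card_subtype_lt (p := fun a => a ≠ b) (x := b) (by simp))
        {a // a ≠ b} rfl (fun n a => x n a) (fun n a => y n a)
        (fun a a' h => hsep _ _ fun e => h (Subtype.ext e)) (fun a => d a) ?_ ⟨a, e⟩
      filter_upwards [(hker d).1 hd] with n hn
      rwa [Fintype.sum_eq_add_sum_subtype_ne _ b, h0, zero_mul, zero_add] at hn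
  have hc' := (hker c).2 hc
  by_contra hne
  have hne' : ∀ b, c b ≠ 0 := fun b h => hne (congrFun (hz b c hc' h))
  have hB : ∀ b : A, IsB v (Finset.univ.image fun _ : Unit => b)ᶜ := by
    intro b
    refine isB_compl v (fun a => if a = b then Fintype.card A else (Fintype.equivFin A a : ℕ)) ?_
      (fun _ => c) _ (Function.injective_of_subsingleton _) (fun _ => ⟨hc', hne' b, fun a _ => ?_⟩)
      fun d hd => ?_
    · intro a a' e
      have b1 := (Fintype.equivFin A a).2
      have b2 := (Fintype.equivFin A a').2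
      simp only at e
      split_ifs at e with h1 h2 h2
      · rw [h1, h2]
      · omega
      · omega
      · exact (Fintype.equivFin A).injective (Fin.ext e)
    · have b1 := (Fintype.equivFin A a).2
      simp only [if_true]
      split_ifs <;> omega
    · have := hz b (d - (d b / c b) • c) (by
        simp only [Pi.sub_apply, Pi.smul_apply, smul_eq_mul, sub_smul, mul_smul,
          Finset.sum_sub_distrib, ← Finset.smul_sum, hd, hc', smul_zero, sub_zero]) (by
        simp [hne' b])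
      rw [sub_eq_zero.1 this]
      exact smul_mem _ _ (subset_span ⟨(), rfl⟩)
  obtain ⟨p, hp⟩ := Ultrafilter.eventually_exists_iff.1
    (Eventually.of_forall (f := (U : Filter ℕ)) fun n =>
      (⟨(a1 n, a2 n, a3 n), rfl⟩ : ∃ p : A × A × A, (a1 n, a2 n, a3 n) = p))
  have hm' : Tendsto m U atTop := by
    obtain ⟨a, a', h⟩ := exists_pair_ne A
    refine tendsto_atTop.2 fun C => ?_
    filter_upwards [hsep a a' h (2 * C)] with n hn
    have b1 := ha1 n a
    have b2 := ha1 n a'
    have b3 := E2 n a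
    have b4 := E2 n a'
    have b5 := E3 n a
    have b6 := E3 n a'
    simp only [hm]
    rcases abs_cases (x n a - x n a') with h1 | h1 <;>
      rcases abs_cases (y n a - y n a') with h2 | h2 <;> omega
  obtain ⟨n, h1, h2⟩ := ((gl4 U m hm' 1 (fun _ _ => 1) (fun _ _ => 1) e2 e3
    (Eventually.of_forall fun n a => ⟨by simp, le_rfl, one_le_exp (by positivity), by
      have := ha1 n a
      simp only [hm]
      omega, by
      have := ha1 n a
      simp only [hm]
      omega⟩) (1 / 2) (by norm_num) (fun _ : Unit => p.1) (fun _ => p.2.1) (fun _ => p.2.2)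
    (Function.injective_of_subsingleton _) (Function.injective_of_subsingleton _)
    (Function.injective_of_subsingleton _) (hB _) (hB _) (hB _)).and hp).exists
  subst h2
  simp only [Finset.univ_unique, Finset.prod_singleton, Finset.prod_const_one, one_mul, he2, he3,
    sub_self, Int.toNat_zero, pow_zero, mul_one] at h1
  refine h1.not_ge ?_
  change _ ≤ (2 : ℝ) ^ e2 n (a1 n) * 3 ^ e3 n (a1 n)
  have b1 : exp (1 / 2) ≤ 2 := by
    have := exp_one_lt_d9
    have b2 : exp (1 / 2) * exp (1 / 2) = exp 1 := by rw [← exp_add]; norm_num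
    nlinarith [exp_pos (1 / 2)]
  rw [mul_comm, exp_nat_mul, hm, pow_add]
  gcongr
  linarith

end Pool.Agent.MP_1e211b_nt.H73
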