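import Mathlib

set_option autoImplicit false

/-!
Polynomials evaluated at numbers `2 ^ x * 3 ^ y`: primitive relations, extremal terms, degrees.
-/

namespace Pool.Agent.MP_1e211b_nt.H73

open MvPolynomial Finsupp

theorem primitive {A κ : Type} [CommRing A] [IsDomain A] [UniqueFactorizationMonoid A]
    (R : Submodule A (κ → A)) (hs : ∀ (g : A) (Y : κ → A), g ≠ 0 → g • Y ∈ R → Y ∈ R) (z : κ)
    (hi : ∀ Y ∈ R, Y z = 0 → Y = 0) (Y0 : κ → A) (h0 : Y0 ∈ R) (h1 : Y0 z ≠ 0) :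
    ∃ Y ∈ R, Y z ≠ 0 ∧ ∀ Y' ∈ R, ∃ g : A, Y' = g • Y := by
  obtain ⟨_, ⟨Y, hY, hz, rfl⟩, hm⟩ := wellFounded_dvdNotUnit.has_min
    {a : A | ∃ Y ∈ R, Y z ≠ 0 ∧ Y z = a} ⟨_, Y0, h0, h1, rfl⟩
  refine ⟨Y, hY, hz, fun Y' hY' => ?_⟩
  obtain ⟨a, b, c, h2, h3, h4⟩ := UniqueFactorizationMonoid.exists_reduced_factors' (Y' z) (Y z) hz
  have hb : b ≠ 0 := right_ne_zero_of_mul (h4 ▸ hz)
  have h5 : a • Y - b • Y' = 0 := hi _ (R.sub_mem (R.smul_mem _ hY) (R.smul_mem _ hY')) (by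
    simp only [Pi.sub_apply, Pi.smul_apply, smul_eq_mul, ← h3, ← h4]
    ring)
  have h6 : ∀ t, a * Y t = b * Y' t := fun t => sub_eq_zero.1 (congrFun h5 t)
  choose Z hZ using fun t => h2.symm.dvd_of_dvd_mul_left (h6 t ▸ dvd_mul_right b (Y' t))
  have h7 : Z ∈ R := hs b Z hb (by
    convert hY
    funext t
    exact (hZ t).symm)
  have h8 : Z z ≠ 0 := right_ne_zero_of_mul (hZ z ▸ hz)
  have h9 : IsUnit b := by
    by_contra hu
    exact hm _ ⟨Z, h7, h8, rfl⟩ ⟨h8, b, hu, by rw [hZ z, mul_comm]⟩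
  obtain ⟨u, rfl⟩ := h9
  refine ⟨↑u⁻¹ * a, funext fun t => ?_⟩
  rw [Pi.smul_apply, smul_eq_mul, mul_assoc, h6, Units.inv_mul_cancel_left]

theorem exists_ord {σ κ : Type} [Fintype σ] [Fintype κ] (lam : κ → ℝ) (W : (σ →₀ ℕ) →+ ℝ) :
    ∃ (β : Type) (_ : LinearOrder β) (f : κ × (σ →₀ ℕ) → β), Function.Injective f ∧
      (∀ p q, f p ≤ f q → lam p.1 + W p.2 ≤ lam q.1 + W q.2) ∧
      ∀ p q a, f p ≤ f q → f (p.1, a + p.2) ≤ f (q.1, a + q.2) := by
  let : LinearOrder σ := LinearOrder.lift' (Fintype.equivFin σ) (Equiv.injective _)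
  refine ⟨ℝ ×ₗ (Lex (σ →₀ ℕ) ×ₗ Fin (Fintype.card κ)), inferInstance,
    fun p => toLex (lam p.1 + W p.2, toLex (toLex p.2, Fintype.equivFin κ p.1)), ?_, ?_, ?_⟩
  · intro p q e
    simp only [EmbeddingLike.apply_eq_iff_eq, Prod.mk.injEq] at e
    exact Prod.ext e.2.2 e.2.1
  · intro p q h
    rcases Prod.Lex.toLex_le_toLex.1 h with h | h
    · exact h.le
    · exact h.1.le
  · intro p q a h
    simp only [Prod.Lex.toLex_le_toLex, map_add, toLex_add] at h ⊢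
    rcases h with h | ⟨h, h' | ⟨h', h''⟩⟩
    · exact Or.inl (by linarith)
    · exact Or.inr ⟨by linarith, Or.inl (by gcongr)⟩
    · exact Or.inr ⟨by linarith, Or.inr ⟨by rw [h'], h''⟩⟩

variable {σ : Type}

theorem top_mul [Fintype σ] (θ : σ → ℤ) {f g : MvPolynomial σ ℚ} (hf : f ≠ 0) (hg : g ≠ 0) :
    ∃ a ∈ f.support, ∃ b ∈ g.support, (∀ a' ∈ f.support, weight θ a' ≤ weight θ a) ∧
      (∀ b' ∈ g.support, weight θ b' ≤ weight θ b) ∧ a + b ∈ (f * g).support := by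
  classical
  obtain ⟨β, _, o, h1, h2, h3⟩ := exists_ord (fun _ : Unit => 0)
    ((Int.castAddHom ℝ).comp (weight θ))
  obtain ⟨a, ha, ha'⟩ := f.support.exists_max_image (fun a => o ((), a)) (support_nonempty.2 hf)
  obtain ⟨b, hb, hb'⟩ := g.support.exists_max_image (fun a => o ((), a)) (support_nonempty.2 hg)
  refine ⟨a, ha, b, hb, fun a' h => by simpa using h2 _ _ (ha' a' h),
    fun b' h => by simpa using h2 _ _ (hb' b' h), ?_⟩
  rw [MvPolynomial.mem_support_iff, coeff_mul, Finset.sum_eq_single (a, b)]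
  · exact mul_ne_zero (MvPolynomial.mem_support_iff.1 ha) (MvPolynomial.mem_support_iff.1 hb)
  · rintro ⟨a', b'⟩ h hne
    by_contra h0
    have e : a' + b' = a + b := by simpa using h
    have c1 := h3 _ _ b (ha' a' (MvPolynomial.mem_support_iff.2 (left_ne_zero_of_mul h0)))
    have c2 := h3 _ _ a' (hb' b' (MvPolynomial.mem_support_iff.2 (right_ne_zero_of_mul h0)))
    simp only [e, add_comm b] at c1 c2
    have c3 : a' = a := add_right_cancel (congrArg Prod.snd (h1 (le_antisymm c1 c2)))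
    subst c3
    exact hne (by rw [add_left_cancel e])
  · simp

/-- the weighted degree -/
noncomputable def dg (θ : σ → ℤ) (f : MvPolynomial σ ℚ) : WithBot ℤ :=
  f.support.sup fun a => ((weight θ a : ℤ) : WithBot ℤ)

theorem dg_le {θ : σ → ℤ} {f : MvPolynomial σ ℚ} {k : WithBot ℤ} :
    dg θ f ≤ k ↔ ∀ a ∈ f.support, ((weight θ a : ℤ) : WithBot ℤ) ≤ k := Finset.sup_le_iff

theorem le_dg (θ : σ → ℤ) {f : MvPolynomial σ ℚ} {a : σ →₀ ℕ} (h : a ∈ f.support) :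
    ((weight θ a : ℤ) : WithBot ℤ) ≤ dg θ f := dg_le.1 le_rfl a h

theorem dg_add (θ : σ → ℤ) {f g : MvPolynomial σ ℚ} {k : WithBot ℤ} (hf : dg θ f ≤ k)
    (hg : dg θ g ≤ k) : dg θ (f + g) ≤ k := by
  classical
  refine dg_le.2 fun a ha => ?_
  rcases Finset.mem_union.1 (MvPolynomial.support_add ha) with h | h
  · exact (le_dg θ h).trans hf
  · exact (le_dg θ h).trans hg

theorem dg_mul [Fintype σ] (θ : σ → ℤ) (f g : MvPolynomial σ ℚ) :
    dg θ (f * g) = dg θ f + dg θ g := by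
  classical
  by_cases hf : f = 0
  · simp [hf, dg]
  by_cases hg : g = 0
  · simp [hg, dg]
  obtain ⟨a, ha, b, hb, h1, h2, h3⟩ := top_mul θ hf hg
  refine le_antisymm (dg_le.2 fun c hc => ?_) (le_trans ?_ (le_dg θ h3))
  · obtain ⟨a', ha', b', hb', rfl⟩ := Finset.mem_add.1 (support_mul f g hc)
    rw [map_add, WithBot.coe_add]
    exact add_le_add (le_dg θ ha') (le_dg θ hb')
  · rw [map_add, WithBot.coe_add]
    exact add_le_add (dg_le.2 fun c hc => WithBot.coe_le_coe.2 (h1 c hc))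
      (dg_le.2 fun c hc => WithBot.coe_le_coe.2 (h2 c hc))

theorem dg_eq (θ : σ → ℤ) {f : MvPolynomial σ ℚ} (hf : f ≠ 0) :
    ∃ a ∈ f.support, dg θ f = (weight θ a : ℤ) :=
  Finset.exists_mem_eq_sup _ (support_nonempty.2 hf) _

theorem dg_monomial (θ : σ → ℤ) (a : σ →₀ ℕ) (c : ℚ) :
    dg θ (monomial a c) ≤ (weight θ a : ℤ) :=
  dg_le.2 fun b hb => by rw [Finset.mem_singleton.1 (support_monomial_subset hb)]

/-- evaluation at the numbers `2 ^ x i * 3 ^ y i` -/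
noncomputable def ev (x y : σ → ℤ) : MvPolynomial σ ℚ →ₐ[ℚ] ℚ :=
  aeval fun i => (2 : ℚ) ^ x i * 3 ^ y i

theorem ev_monomial (x y : σ → ℤ) (a : σ →₀ ℕ) (c : ℚ) :
    ev x y (monomial a c) = c * (2 ^ weight x a * 3 ^ weight y a) := by
  rw [ev, aeval_monomial]
  congr 1
  induction a using Finsupp.induction_linear with
  | zero => simp
  | add a b ha hb =>
    rw [Finsupp.prod_add_index' (by simp) (by simp [pow_add]), ha, hb, map_add, map_add,
      zpow_add₀ (by norm_num), zpow_add₀ (by norm_num)]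
    ring
  | single i k =>
    rw [Finsupp.prod_single_index (by simp), weight_single, weight_single, mul_pow,
      ← zpow_natCast, ← zpow_natCast, ← zpow_mul, ← zpow_mul]
    simp [mul_comm]

theorem ev_eq (x y : σ → ℤ) (f : MvPolynomial σ ℚ) :
    ev x y f = ∑ a ∈ f.support, coeff a f * (2 ^ weight x a * 3 ^ weight y a) := by
  conv_lhs => rw [f.as_sum, map_sum]
  simp only [ev_monomial]

theorem ev_low (f : MvPolynomial σ ℚ) : ∃ d : ℚ, 0 ≤ d ∧ ∀ (x y : σ → ℤ) (m m' : ℤ),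
    (∀ a ∈ f.support, m ≤ weight x a ∧ m' ≤ weight y a) → ev x y f ≠ 0 →
      2 ^ m * 3 ^ m' ≤ d * |ev x y f| := by
  obtain ⟨c, hc⟩ := IsLocalization.exist_integer_multiples_of_finite (nonZeroDivisors ℤ)
    fun a : f.support => coeff a f
  choose z hz using hc
  have hc0 : ((c : ℤ) : ℚ) ≠ 0 := by exact_mod_cast nonZeroDivisors.coe_ne_zero c
  have hz' : ∀ a, (z a : ℚ) = (c : ℤ) * coeff a f := fun a => by simpa using hz a
  refine ⟨|((c : ℤ) : ℚ)|, abs_nonneg _, fun x y m m' h h0 => ?_⟩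
  have e : ((c : ℤ) : ℚ) * ev x y f = 2 ^ m * 3 ^ m' * ((∑ a : f.support, z a *
      (2 ^ (weight x a.1 - m).toNat * 3 ^ (weight y a.1 - m').toNat) : ℤ) : ℚ) := by
    rw [ev_eq, ← Finset.sum_coe_sort, Finset.mul_sum]
    push_cast
    rw [Finset.mul_sum]
    refine Finset.sum_congr rfl fun a _ => ?_
    rw [hz', ← zpow_natCast, ← zpow_natCast, Int.toNat_of_nonneg (sub_nonneg.2 (h a a.2).1),
      Int.toNat_of_nonneg (sub_nonneg.2 (h a a.2).2), zpow_sub₀ (by norm_num),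
      zpow_sub₀ (by norm_num)]
    field_simp
  rw [← abs_mul, e, abs_mul, abs_of_pos (by positivity : (0 : ℚ) < 2 ^ m * 3 ^ m')]
  refine le_mul_of_one_le_right (by positivity) ?_
  rw [← Int.cast_abs, ← Int.cast_one, Int.cast_le]
  exact Int.one_le_abs fun h1 => mul_ne_zero hc0 h0 (by rw [e, h1]; simp)

theorem ev_up (f : MvPolynomial σ ℚ) (x y : σ → ℤ) (m m' : ℤ) (k : ℕ)
    (h : ∀ a ∈ f.support, m ≤ weight x a ∧ m' ≤ weight y a ∧
      weight x a + weight y a ≤ m + m' + k) :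
    |ev x y f| ≤ (∑ a ∈ f.support, |coeff a f|) * (2 ^ m * 3 ^ m' * 3 ^ k) := by
  rw [ev_eq, Finset.sum_mul]
  refine (Finset.abs_sum_le_sum_abs _ _).trans (Finset.sum_le_sum fun a ha => ?_)
  obtain ⟨h1, h2, h3⟩ := h a ha
  rw [abs_mul, abs_of_pos (by positivity : (0 : ℚ) < 2 ^ weight x a * 3 ^ weight y a)]
  refine mul_le_mul_of_nonneg_left ?_ (abs_nonneg _)
  obtain ⟨i, hi⟩ := Int.le.dest h1
  obtain ⟨j, hj⟩ := Int.le.dest h2
  rw [← hi, ← hj, zpow_add₀ (by norm_num), zpow_add₀ (by norm_num), zpow_natCast, zpow_natCast,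
    mul_mul_mul_comm]
  refine mul_le_mul_of_nonneg_left ?_ (by positivity)
  refine le_trans ?_ (pow_le_pow_right₀ (by norm_num) (by omega : i + j ≤ k))
  rw [pow_add]
  gcongr
  norm_num

end Pool.Agent.MP_1e211b_nt.H73
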