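import Mathlib
import Pool.Agent.MP_60c1b5_an.H73.SZ
import Pool.Agent.MP_1e211b_nt.H73.NV
import Pool.Agent.MP_1e211b_nt.H73.Poly

set_option autoImplicit false

/-!
The primitive relation between integer sequences over the combinations of the numbers
`2 ^ x * 3 ^ y` has small width.
-/

namespace Pool.Agent.MP_1e211b_nt.H73

open Real Filter MvPolynomial Finsupp Pool.Agent.MP_60c1b5_an.H73

variable {σ : Type}

/-- different monomials drift apart -/
def Sep (U : Ultrafilter ℕ) (x y : ℕ → σ → ℤ) : Prop :=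
  ∀ a a' : σ →₀ ℕ, a ≠ a' → ∀ C : ℤ, ∀ᶠ n in (U : Filter ℕ),
    C < |weight (x n) a - weight (x n) a'| + |weight (y n) a - weight (y n) a'|

theorem Sep.ne {U : Ultrafilter ℕ} {x y : ℕ → σ → ℤ} (h : Sep U x y) {f : MvPolynomial σ ℚ}
    (hf : f ≠ 0) : ∀ᶠ n in (U : Filter ℕ), ev (x n) (y n) f ≠ 0 := by
  refine Ultrafilter.eventually_not.2 fun h0 => ?_
  obtain ⟨a, ha⟩ := support_nonempty.2 hf
  refine MvPolynomial.mem_support_iff.1 ha (nv2 U _ f.support rfl (fun n a => weight (x n) a.1)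
    (fun n a => weight (y n) a.1) (fun a a' e => h _ _ fun e' => e (Subtype.ext e'))
    (fun a => coeff a f) ?_ ⟨a, ha⟩)
  filter_upwards [h0] with n hn
  rwa [ev_eq, ← Finset.sum_coe_sort] at hn

/-- the module of relations -/
def Rel (U : Ultrafilter ℕ) (x y : ℕ → σ → ℤ) {κ : Type} [Fintype κ] (u : ℕ → κ → ℤ) :
    Submodule (MvPolynomial σ ℚ) (κ → MvPolynomial σ ℚ) where
  carrier := {Y | ∀ᶠ n in (U : Filter ℕ), ∑ t, ev (x n) (y n) (Y t) * u n t = 0}
  add_mem' := by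
    intro Y Z hY hZ
    filter_upwards [hY, hZ] with n h1 h2
    simp only [Pi.add_apply, map_add, add_mul, Finset.sum_add_distrib, h1, h2, add_zero]
  zero_mem' := by simp
  smul_mem' := by
    intro g Y hY
    filter_upwards [hY] with n h1
    simp only [Pi.smul_apply, smul_eq_mul, map_mul, mul_assoc, ← Finset.mul_sum, h1, mul_zero]

/-- the exponents with all entries at most `D` -/
noncomputable def bx (σ : Type) [Fintype σ] [DecidableEq σ] (D : ℕ) : Finset (σ →₀ ℕ) :=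
  (Fintype.piFinset fun _ => Finset.range (D + 1)).map equivFunOnFinite.symm.toEmbedding

theorem mem_bx [Fintype σ] [DecidableEq σ] {D : ℕ} {a : σ →₀ ℕ} : a ∈ bx σ D ↔ ∀ i, a i ≤ D := by
  simp [bx, Finset.mem_map_equiv]

theorem card_bx [Fintype σ] [DecidableEq σ] (D : ℕ) :
    (bx σ D).card = (D + 1) ^ Fintype.card σ := by
  simp [bx]

theorem sum_coeff {O : Finset (σ →₀ ℕ)} {f : MvPolynomial σ ℚ} (h : f.support ⊆ O) :
    ∑ a : O, monomial a.1 (coeff a.1 f) = f := by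
  rw [Finset.sum_coe_sort O fun a => monomial a (coeff a f)]
  conv_rhs => rw [f.as_sum]
  refine (Finset.sum_subset h fun a _ ha => ?_).symm
  rw [MvPolynomial.notMem_support_iff.1 ha, map_zero]

theorem root_le {r P η c : ℝ} {i o : ℕ} (hi : 1 ≤ i) (hr : 0 < r) (hP : 1 ≤ P) (hc : 0 ≤ c)
    (ho : (o : ℝ) ≤ (1 + η) * i) (hη : η * log P ≤ c) (h : r ^ i < P ^ o * exp c) :
    r ≤ exp (2 * c) * P := by
  have d0 : (1 : ℝ) ≤ i := by exact_mod_cast hi
  have d1 := log_le_log (by positivity) h.le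
  rw [log_pow, log_mul (by positivity) (by positivity), log_exp, log_pow] at d1
  have d5 := mul_le_mul_of_nonneg_right ho (log_nonneg hP)
  rw [← log_le_log_iff hr (by positivity), log_mul (by positivity) (by positivity), log_exp]
  refine le_of_mul_le_mul_left ?_ (zero_lt_one.trans_le d0)
  nlinarith [mul_le_mul_of_nonneg_left hη (zero_le_one.trans d0)]

theorem gain (U : Ultrafilter ℕ) (hU : (U : Filter ℕ) ≤ atTop) [Fintype σ] (x y : ℕ → σ → ℤ)
    (hs : Sep U x y) (K : ℕ) (hx : ∀ᶠ n : ℕ in (U : Filter ℕ), ∀ i, |x n i| ≤ K * n ∧ |y n i| ≤ K * n)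
    {κ : Type} [Fintype κ] (u : ℕ → κ → ℤ) (ℓ : ℕ → κ → ℝ)
    (h : ∀ᶠ n in (U : Filter ℕ), ∀ t, |(u n t : ℝ)| ≤ ℓ n t ∧ 1 ≤ ℓ n t ∧ ℓ n t ≤ exp (K * n))
    (z : κ) (hi : ∀ Y ∈ Rel U x y u, Y z = 0 → Y = 0) (Y0 : κ → MvPolynomial σ ℚ)
    (h0 : Y0 ∈ Rel U x y u) (h1 : Y0 z ≠ 0) :
    ∃ Y ∈ Rel U x y u, Y z ≠ 0 ∧ ∃ m m' : ℕ → ℤ, ∀ᶠ n in (U : Filter ℕ), ∀ t, ∀ a ∈ (Y t).support,
      m n ≤ weight (x n) a ∧ m' n ≤ weight (y n) a ∧
        ℓ n t * (2 ^ (weight (x n) a - m n) * 3 ^ (weight (y n) a - m' n)) ≤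
          exp n * ∏ s, ℓ n s := by
  classical
  obtain ⟨Y, hY, hz, hgen⟩ := primitive (Rel U x y u) (by
    intro g Y hg hY
    filter_upwards [hY, hs.ne hg] with n a1 a2
    simpa only [Pi.smul_apply, smul_eq_mul, map_mul, mul_assoc, ← Finset.mul_sum, mul_eq_zero,
      a2, false_or] using a1) z hi Y0 h0 h1
  refine ⟨Y, hY, hz, ?_⟩
  obtain ⟨S, hS⟩ : ∃ S : Finset (κ × (σ →₀ ℕ)), ∀ p, p ∈ S ↔ p.2 ∈ (Y p.1).support :=
    ⟨Finset.univ.biUnion fun t => (Y t).support.image (Prod.mk t), by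
      rintro ⟨t, a⟩
      simp⟩
  obtain ⟨a0, ha0⟩ := support_nonempty.2 hz
  have vtx : ∀ (lam : ℕ → κ → ℝ) (W : ℕ → (σ →₀ ℕ) →+ ℝ), ∃ p : S,
      (∃ (β : Type) (_ : LinearOrder β) (f : κ × (σ →₀ ℕ) → β), Function.Injective f ∧
        ∀ q ∈ S, ∀ a, f (q.1, a + q.2) ≤ f (p.1.1, a + p.1.2)) ∧
      ∀ᶠ n in (U : Filter ℕ), ∀ q ∈ S, lam n q.1 + W n q.2 ≤ lam n p.1.1 + W n p.1.2 := by
    intro lam W
    obtain ⟨p, hp⟩ := Ultrafilter.eventually_exists_iff.1
      (Eventually.of_forall (f := (U : Filter ℕ)) fun n => (by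
        obtain ⟨β, _, f, b1, b2, b3⟩ := exists_ord (lam n) (W n)
        obtain ⟨p, hp, hp'⟩ := S.exists_max_image f ⟨(z, a0), (hS _).2 ha0⟩
        exact ⟨⟨p, hp⟩, ⟨β, inferInstance, f, b1, fun q hq a => b3 _ _ _ (hp' q hq)⟩,
          fun q hq => b2 _ _ (hp' q hq)⟩ : ∃ p : S,
      (∃ (β : Type) (_ : LinearOrder β) (f : κ × (σ →₀ ℕ) → β), Function.Injective f ∧
        ∀ q ∈ S, ∀ a, f (q.1, a + q.2) ≤ f (p.1.1, a + p.1.2)) ∧
        ∀ q ∈ S, lam n q.1 + W n q.2 ≤ lam n p.1.1 + W n p.1.2))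
    exact ⟨p, hp.exists.choose_spec.1, hp.mono fun n hn => hn.2⟩
  obtain ⟨p1, v1, w1⟩ := vtx (fun n t => log (ℓ n t)) fun n =>
    log 2 • (Int.castAddHom ℝ).comp (weight (x n)) + log 3 • (Int.castAddHom ℝ).comp (weight (y n))
  obtain ⟨p2, v2, w2⟩ := vtx 0 fun n => -(Int.castAddHom ℝ).comp (weight (x n))
  obtain ⟨p3, v3, w3⟩ := vtx 0 fun n => -(Int.castAddHom ℝ).comp (weight (y n))
  obtain ⟨δ, hδ⟩ := Finite.exists_le fun p : κ × σ => degreeOf p.2 (Y p.1)
  obtain ⟨D, hD⟩ := exists_box (Fintype.card σ) δ (1 / (2 * (Fintype.card κ * K + 1)))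
    (by positivity)
  obtain ⟨O, hO, hO'⟩ : ∃ O : Finset (σ →₀ ℕ), (∀ a, a ∈ O ↔ ∀ i, a i ≤ 2 * (D + δ)) ∧
      (bx σ (2 * (D + δ))).card = O.card := ⟨_, fun _ => mem_bx, rfl⟩
  obtain ⟨I, hI⟩ : ∃ I : Finset (σ →₀ ℕ), ∀ a, a ∈ I ↔ a ∈ O ∧ ∀ q ∈ S, a + q.2 ∈ O :=
    ⟨O.filter fun a => ∀ q ∈ S, a + q.2 ∈ O, fun _ => Finset.mem_filter⟩
  have hOc : (O.card : ℝ) ≤ (1 + 1 / (2 * (Fintype.card κ * K + 1))) * I.card ∧ 1 ≤ I.card := by
    have : bx σ (2 * D) ⊆ I := by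
      intro a ha
      rw [mem_bx] at ha
      refine (hI _).2 ⟨(hO _).2 fun i => (ha i).trans (by omega), fun q hq => (hO _).2 fun i => ?_⟩
      have b1 := (monomial_le_degreeOf i ((hS q).1 hq)).trans (hδ (q.1, i))
      have b2 := ha i
      rw [Finsupp.add_apply]
      omega
    have b3 := Finset.card_le_card this
    rw [card_box, card_box, ← card_bx, ← card_bx, hO'] at hD
    refine ⟨hD.trans (by gcongr), le_trans ?_ b3⟩
    rw [card_bx]
    exact Nat.one_le_pow _ _ (by omega)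
  obtain ⟨B, hB⟩ : ∃ B : ℕ, ∀ᶠ n : ℕ in (U : Filter ℕ), ∀ a : O,
      |weight (x n) a.1| ≤ (B * n : ℕ) ∧ |weight (y n) a.1| ≤ (B * n : ℕ) := by
    refine ⟨Fintype.card σ * (2 * (D + δ) * K), ?_⟩
    have : ∀ (n : ℕ) (w : σ → ℤ), (∀ i, |w i| ≤ K * n) → ∀ a : O,
        |weight w a.1| ≤ (Fintype.card σ * (2 * (D + δ) * K) * n : ℕ) := by
      intro n w hw a
      rw [weight_eq_sum]
      refine (Finset.abs_sum_le_sum_abs _ _).trans ((Finset.sum_le_card_nsmul _ _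
        (2 * (D + δ) * (K * n) : ℤ) fun i _ => ?_).trans_eq (by simp; ring))
      rw [nsmul_eq_mul, abs_mul, Nat.abs_cast]
      exact mul_le_mul (by exact_mod_cast (hO _).1 a.2 i) (hw i) (abs_nonneg _) (by positivity)
    exact hx.mono fun n hn a => ⟨this n _ (fun i => (hn i).1) a, this n _ (fun i => (hn i).2) a⟩
  set e2 : ℕ → κ × O → ℕ := fun n α => (weight (x n) α.2.1 + (B * n : ℕ)).toNat with he2
  set e3 : ℕ → κ × O → ℕ := fun n α => (weight (y n) α.2.1 + (B * n : ℕ)).toNat with he3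
  have hE : ∀ᶠ n : ℕ in (U : Filter ℕ), ∀ α, (e2 n α : ℤ) = weight (x n) α.2.1 + (B * n : ℕ) ∧
      (e3 n α : ℤ) = weight (y n) α.2.1 + (B * n : ℕ) ∧ e2 n α ≤ 2 * (B * n) ∧
        e3 n α ≤ 2 * (B * n) := by
    filter_upwards [hB] with n hn α
    have b1 := abs_le.1 (hn α.2).1
    have b2 := abs_le.1 (hn α.2).2
    simp only [he2, he3]
    omega
  clear_value e2 e3
  set v := cls U fun n (α : κ × O) => u n α.1 * (2 ^ e2 n α * 3 ^ e3 n α) with hv
  have hker : ∀ c : κ × O → ℚ, ∑ α, c α • v α = 0 ↔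
      (fun t => ∑ a : O, monomial a.1 (c (t, a))) ∈ Rel U x y u := by
    intro c
    simp only [hv, cls]
    rw [sum_mk, ← map_zero (nullSeq U).mkQ, mk_eq_iff]
    refine eventually_congr (hE.mono fun n hn => ?_)
    have : ∑ α, c α * ((u n α.1 * (2 ^ e2 n α * 3 ^ e3 n α) : ℤ) : ℚ) =
        (2 ^ (B * n) * 3 ^ (B * n)) *
          ∑ t, ev (x n) (y n) (∑ a : O, monomial a.1 (c (t, a))) * u n t := by
      rw [Fintype.sum_prod_type, Finset.mul_sum]
      refine Finset.sum_congr rfl fun t _ => ?_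
      rw [map_sum, Finset.sum_mul, Finset.mul_sum]
      refine Finset.sum_congr rfl fun a _ => ?_
      push_cast
      rw [ev_monomial, ← zpow_natCast _ (e2 _ _), ← zpow_natCast _ (e3 _ _), (hn _).1, (hn _).2.1,
        zpow_add₀ (by norm_num), zpow_add₀ (by norm_num), zpow_natCast, zpow_natCast]
      ring
    rw [this, Pi.zero_apply, mul_eq_zero, or_iff_right (by positivity)]
  set l : S → I → κ × O := fun p j =>
    (p.1.1, ⟨j.1 + p.1.2, ((hI _).1 j.2).2 _ p.2⟩) with hl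
  have il : ∀ p, Function.Injective (l p) := fun p j j' e =>
    Subtype.ext (add_right_cancel (congrArg (fun α : κ × O => α.2.1) e))
  have hsup : ∀ (j : σ →₀ ℕ) (t : κ), ∀ a ∈ (monomial j (1 : ℚ) * Y t).support,
      ∃ b, (t, b) ∈ S ∧ a = j + b := by
    intro j t a ha
    obtain ⟨j', b1, b, b2, rfl⟩ := Finset.mem_add.1 (support_mul _ _ ha)
    exact ⟨b, (hS _).2 b2, by rw [Finset.mem_singleton.1 (support_monomial_subset b1)]⟩
  have isB : ∀ p : S, (∃ (β : Type) (_ : LinearOrder β) (f : κ × (σ →₀ ℕ) → β),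
      Function.Injective f ∧ ∀ q ∈ S, ∀ a, f (q.1, a + q.2) ≤ f (p.1.1, a + p.1.2)) →
      IsB v (Finset.univ.image (l p))ᶜ := by
    rintro p ⟨β, _, f, f1, f2⟩
    refine isB_compl v (fun α => f (α.1, α.2.1)) (fun α α' e => ?_)
      (fun j α => coeff α.2.1 (monomial j.1 1 * Y α.1)) _ (il p)
      (fun j => ⟨(hker _).2 ?_, ?_, fun α hα => ?_⟩) fun c hc => ?_
    · have := Prod.ext_iff.1 (f1 e)
      exact Prod.ext this.1 (Subtype.ext this.2)
    · have e : (fun t => ∑ a : O, monomial a.1 (coeff a.1 (monomial j.1 (1 : ℚ) * Y t))) =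
          (monomial j.1 (1 : ℚ) : MvPolynomial σ ℚ) • Y := by
        funext t
        rw [Pi.smul_apply, smul_eq_mul]
        refine sum_coeff fun a ha => ?_
        obtain ⟨b, b1, rfl⟩ := hsup _ _ a ha
        exact ((hI _).1 j.2).2 _ b1
      exact e ▸ (Rel U x y u).smul_mem _ hY
    · simp only [hl, coeff_monomial_mul, one_mul]
      exact MvPolynomial.mem_support_iff.1 ((hS _).1 p.2)
    · obtain ⟨b, b1, b2⟩ := hsup _ _ _ (MvPolynomial.mem_support_iff.2 hα)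
      simp only [b2, hl]
      exact f2 _ b1 _
    · obtain ⟨g, hg⟩ := hgen _ ((hker c).1 hc)
      have b1 : ∀ t, ∑ a : O, monomial a.1 (c (t, a)) = g * Y t := congrFun hg
      have b2 : ∀ q ∈ S, ∀ a ∈ g.support, a + q.2 ∈ O := by
        intro q hq a ha
        refine (hO _).2 fun i => ?_
        have c1 := (hS q).1 hq
        have c2 := degreeOf_mul_eq (n := i) (MvPolynomial.support_nonempty.1 ⟨a, ha⟩)
          (MvPolynomial.support_nonempty.1 ⟨_, c1⟩)
        refine (add_le_add (monomial_le_degreeOf i ha) (monomial_le_degreeOf i c1)).trans ?_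
        rw [← c2, ← b1, degreeOf_eq_sup]
        refine Finset.sup_le fun b hb => ?_
        obtain ⟨a', -, c3⟩ := Finset.mem_biUnion.1 (MvPolynomial.support_sum hb)
        rw [Finset.mem_singleton.1 (support_monomial_subset c3)]
        exact (hO _).1 a'.2 i
      have b3 : g.support ⊆ I := fun a ha => (hI _).2 ⟨(hO _).2 fun i =>
        le_trans (by simp) ((hO _).1 (b2 _ p.2 a ha) i), fun q hq => b2 q hq a ha⟩
      refine (Submodule.mem_span_range_iff_exists_fun ℚ).2 ⟨fun j => coeff j.1 g, ?_⟩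
      funext α
      have b4 := congrArg (coeff α.2.1) (b1 α.1)
      rw [← sum_coeff b3, Finset.sum_mul, coeff_sum, coeff_sum, Finset.sum_eq_single α.2
        (fun a _ ha => by rw [coeff_monomial, if_neg fun e => ha (Subtype.ext e)]) (by simp),
        coeff_monomial, if_pos rfl] at b4
      rw [b4, Finset.sum_apply]
      refine Finset.sum_congr rfl fun j _ => ?_
      rw [Pi.smul_apply, ← coeff_smul, ← smul_mul_assoc, smul_monomial, smul_eq_mul, mul_one]
  have key := gl4 U id hU (K + 2 * B) (fun n (α : κ × O) => u n α.1) (fun n α => ℓ n α.1) e2 e3 (by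
    filter_upwards [h, hE] with n b1 b2 α
    have b3 := b2 α
    refine ⟨(b1 _).1, (b1 _).2.1, (b1 _).2.2.trans ?_, ?_, ?_⟩
    · simp only [id]
      gcongr
      omega
    · simp only [id]
      nlinarith
    · simp only [id]
      nlinarith) (1 / 2) (by norm_num) _ _ _ (il p1) (il p2) (il p3) (isB _ v1) (isB _ v2)
    (isB _ v3)
  refine ⟨fun n => weight (x n) p2.1.2, fun n => weight (y n) p3.1.2, ?_⟩
  filter_upwards [h, hE, key, w1, w2, w3] with n b1 b2 b3 b4 b5 b6 t a ha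
  have c1 := b4 _ ((hS (t, a)).2 ha)
  refine ⟨by simpa using b5 _ ((hS (t, a)).2 ha), by simpa using b6 _ ((hS (t, a)).2 ha), ?_⟩
  set r := ℓ n p1.1.1 * ((2 : ℝ) ^ (weight (x n) p1.1.2 - weight (x n) p2.1.2) *
    3 ^ (weight (y n) p1.1.2 - weight (y n) p3.1.2)) with hr
  have c0 : ∀ t, 0 < ℓ n t := fun t => zero_lt_one.trans_le (b1 t).2.1
  have c2 : ∀ j, ℓ n (l p1 j).1 * ((2 : ℝ) ^ e2 n (l p1 j) * 3 ^ e3 n (l p1 j)) =
      r * (2 ^ e2 n (l p2 j) * 3 ^ e3 n (l p3 j)) := by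
    intro j
    simp only [← zpow_natCast, (b2 _).1, (b2 _).2.1, hl, hr, map_add,
      zpow_add₀ (by norm_num : (2 : ℝ) ≠ 0), zpow_add₀ (by norm_num : (3 : ℝ) ≠ 0),
      zpow_sub₀ (by norm_num : (2 : ℝ) ≠ 0), zpow_sub₀ (by norm_num : (3 : ℝ) ≠ 0)]
    field_simp
  simp only [c2] at b3
  rw [Finset.prod_mul_distrib, mul_lt_mul_iff_left₀ (by positivity), Finset.prod_const,
    Fintype.prod_prod_type, Finset.card_univ, Fintype.card_coe] at b3
  simp only [Finset.prod_const, Finset.card_univ, Fintype.card_coe, Finset.prod_pow, id] at b3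
  have c3 : 1 ≤ ∏ s, ℓ n s := Finset.one_le_prod fun s _ => (b1 s).2.1
  have c4 := root_le hOc.2 (mul_pos (c0 _) (by positivity)) c3 (by positivity) hOc.1 (by
    have d3 : log (∏ s, ℓ n s) ≤ Fintype.card κ * (K * n) := by
      rw [log_le_iff_le_exp (by positivity), exp_nat_mul, ← Finset.card_univ, ← Finset.prod_const]
      exact Finset.prod_le_prod (fun s _ => (c0 s).le) fun s _ => (b1 s).2.2
    rw [one_div, inv_mul_le_iff₀ (by positivity)]
    have : (0 : ℝ) ≤ n := by positivity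
    nlinarith) b3
  rw [show 2 * (1 / 2 * (n : ℝ)) = n by ring] at c4
  refine le_trans ?_ c4
  have c5 := c0 t
  have c6 := c0 p1.1.1
  rw [← log_le_log_iff (by positivity) (by positivity)]
  simp only [AddMonoidHom.add_apply, AddMonoidHom.smul_apply, AddMonoidHom.comp_apply,
    Int.coe_castAddHom, smul_eq_mul] at c1
  rw [log_mul (by positivity) (by positivity), log_mul (by positivity) (by positivity),
    log_mul (by positivity) (by positivity), log_mul (by positivity) (by positivity)]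
  simp only [log_zpow]
  push_cast
  linarith

end Pool.Agent.MP_1e211b_nt.H73
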