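import Mathlib
import Pool.Agent.MP_60c1b5_an.H73.Approx
import Pool.Agent.MP_1e211b_nt.H73.Gain

set_option autoImplicit false

/-!
An integer that is a short combination of small atoms with coefficients `2 ^ x * 3 ^ y`,
`x + y ≤ 0`, is small.
-/

namespace Pool.Agent.MP_1e211b_nt.H73

open Real Filter MvPolynomial Finsupp Pool.Agent.MP_60c1b5_an.H73

theorem lattice2 (U : Ultrafilter ℕ) {J : Type} [Fintype J] (ξ η : J → ℕ → ℤ)
    (hξ : ∀ j, ξ j ∈ LinB U) (hη : ∀ j, η j ∈ LinB U) :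
    ∃ (σ : Type) (_ : Fintype σ) (x y : ℕ → σ → ℤ) (K : ℕ) (α β : J → σ →₀ ℕ) (C C' : J → ℤ),
      Sep U x y ∧ (∀ᶠ n : ℕ in (U : Filter ℕ), ∀ i, |x n i| ≤ K * n ∧ |y n i| ≤ K * n) ∧
      ∀ᶠ n in (U : Filter ℕ), ∀ j, ξ j n = weight (x n) (α j) - weight (x n) (β j) + C j ∧
        η j n = weight (y n) (α j) - weight (y n) (β j) + C' j := by
  obtain ⟨ρ, b, a, c, hb, ha, hgrow⟩ := lattice U (Sum.elim ξ η) (by
    rintro (j | j)
    · exact hξ j
    · exact hη j)
  choose K hK using hb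
  obtain ⟨K', hK'⟩ := Finite.exists_le K
  refine ⟨Fin ρ ⊕ Fin ρ, inferInstance, fun n => Sum.elim (fun i => b i n) 0,
    fun n => Sum.elim 0 fun i => b i n, K', fun j => equivFunOnFinite.symm
      (Sum.elim (fun i => (a (.inl j) i).toNat) fun i => (a (.inr j) i).toNat),
    fun j => equivFunOnFinite.symm
      (Sum.elim (fun i => (-a (.inl j) i).toNat) fun i => (-a (.inr j) i).toNat),
    fun j => c (.inl j), fun j => c (.inr j), fun e e' hne C => ?_, ?_, ?_⟩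
  · simp only [weight_eq_sum, Fintype.sum_sum_type, Sum.elim_inl, Sum.elim_inr, Pi.zero_apply,
      mul_zero, Finset.sum_const_zero, add_zero, zero_add, nsmul_eq_mul, ← Finset.sum_sub_distrib,
      ← sub_mul]
    obtain ⟨i | i, hi⟩ := DFunLike.ne_iff.1 hne
    · filter_upwards [hgrow (fun i => e (.inl i) - e' (.inl i))
        (Function.ne_iff.2 ⟨i, by simpa [sub_eq_zero] using hi⟩) C] with n hn
      exact hn.trans_le (le_add_of_nonneg_right (abs_nonneg _))
    · filter_upwards [hgrow (fun i => e (.inr i) - e' (.inr i))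
        (Function.ne_iff.2 ⟨i, by simpa [sub_eq_zero] using hi⟩) C] with n hn
      exact hn.trans_le (le_add_of_nonneg_left (abs_nonneg _))
  · filter_upwards [eventually_all.2 hK] with n hn
    have h1 : ∀ i, |b i n| ≤ K' * n := fun i => (hn i).trans (by gcongr; exact hK' i)
    have h2 : |(0 : ℤ)| ≤ K' * n := by
      rw [abs_zero]
      positivity
    rintro (i | i)
    · exact ⟨h1 i, h2⟩
    · exact ⟨h2, h1 i⟩
  · filter_upwards [eventually_all.2 ha] with n hn j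
    simp only [weight_eq_sum, Fintype.sum_sum_type, Sum.elim_inl, Sum.elim_inr, Pi.zero_apply,
      mul_zero, Finset.sum_const_zero, add_zero, zero_add, nsmul_eq_mul, ← Finset.sum_sub_distrib,
      ← sub_mul, equivFunOnFinite_symm_apply_apply, Int.toNat_sub_toNat_neg]
    exact ⟨hn (.inl j), hn (.inr j)⟩

variable {σ κ : Type} [Fintype σ] [Fintype κ] {U : Ultrafilter ℕ} {x y : ℕ → σ → ℤ}
  {u : ℕ → κ → ℤ}

theorem weight_add' (x y : σ → ℤ) (a : σ →₀ ℕ) : weight (x + y) a = weight x a + weight y a := by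
  simp only [weight_eq_sum, Pi.add_apply, smul_add, Finset.sum_add_distrib]

/-- `v` is a combination of the `u s` with coefficients of degree at most `k` -/
def Dg (U : Ultrafilter ℕ) (x y : ℕ → σ → ℤ) (u : ℕ → κ → ℤ) (v : ℕ → ℚ) (k : ℕ → ℤ) : Prop :=
  ∃ q : MvPolynomial σ ℚ, q ≠ 0 ∧ ∃ p : κ → MvPolynomial σ ℚ, ∀ᶠ n in (U : Filter ℕ),
    ev (x n) (y n) q * v n = ∑ s, ev (x n) (y n) (p s) * u n s ∧
      ∀ s, dg (x n + y n) (p s) ≤ dg (x n + y n) q + k n

theorem Dg.sum {J : Type} (T : Finset J) {v : J → ℕ → ℚ} {k : ℕ → ℤ}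
    (h : ∀ j, Dg U x y u (v j) k) : Dg U x y u (fun n => ∑ j ∈ T, v j n) k := by
  classical
  induction T using Finset.induction_on with
  | empty => exact ⟨1, one_ne_zero, 0, by simp [dg]⟩
  | insert j T hj ih =>
    obtain ⟨q, hq, p, hp⟩ := h j
    obtain ⟨q', hq', p', hp'⟩ := ih
    refine ⟨q * q', mul_ne_zero hq hq', fun s => q' * p s + q * p' s, ?_⟩
    filter_upwards [hp, hp'] with n h1 h2
    refine ⟨?_, fun s => dg_add _ ?_ ?_⟩
    · simp only [map_add, map_mul, add_mul, Finset.sum_add_distrib, mul_assoc, ← Finset.mul_sum,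
        ← h1.1, ← h2.1, Finset.sum_insert hj]
      ring
    · rw [dg_mul, dg_mul, add_comm (dg _ q), add_assoc]
      exact add_le_add le_rfl (h1.2 s)
    · rw [dg_mul, dg_mul, add_assoc]
      exact add_le_add le_rfl (h2.2 s)

theorem Dg.mon {v : ℕ → ℚ} {k k' ξ η : ℕ → ℤ} (h : Dg U x y u v k) (c : ℚ) (α β : σ →₀ ℕ)
    (C C' : ℤ) (h' : ∀ᶠ n in (U : Filter ℕ), (ξ n = weight (x n) α - weight (x n) β + C ∧
      η n = weight (y n) α - weight (y n) β + C') ∧ ξ n + η n + k n ≤ k' n + C + C') :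
    Dg U x y u (fun n => c * (2 ^ ξ n * 3 ^ η n) * v n) k' := by
  obtain ⟨q, hq, p, hp⟩ := h
  refine ⟨monomial β 1 * q, mul_ne_zero (by simp) hq,
    fun s => monomial α (c * (2 ^ C * 3 ^ C')) * p s, ?_⟩
  filter_upwards [hp, h'] with n h1 ⟨⟨h2, h3⟩, h4⟩
  refine ⟨?_, fun s => ?_⟩
  · simp only [map_mul, mul_assoc, ← Finset.mul_sum, ← h1.1, ev_monomial, h2, h3,
      zpow_add₀ (by norm_num : (2 : ℚ) ≠ 0), zpow_add₀ (by norm_num : (3 : ℚ) ≠ 0),
      zpow_sub₀ (by norm_num : (2 : ℚ) ≠ 0), zpow_sub₀ (by norm_num : (3 : ℚ) ≠ 0)]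
    field_simp
  · obtain ⟨a, -, ha⟩ := dg_eq (x n + y n) hq
    rw [dg_mul, dg_mul]
    refine (add_le_add (dg_monomial _ _ _) (h1.2 s)).trans (le_trans ?_ (add_le_add
      (add_le_add (le_dg _ (a := β) (by simp [support_monomial])) le_rfl) le_rfl))
    rw [ha, weight_add', weight_add' _ _ β]
    norm_cast
    omega

theorem gain' (hU : (U : Filter ℕ) ≤ atTop) (hs : Sep U x y) (K : ℕ)
    (hx : ∀ᶠ n : ℕ in (U : Filter ℕ), ∀ i, |x n i| ≤ K * n ∧ |y n i| ≤ K * n) (lam : ℕ → κ → ℕ)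
    (hu : ∀ᶠ n in (U : Filter ℕ), (∀ t, |u n t| ≤ 2 ^ lam n t) ∧ ∑ t, lam n t ≤ 2 * n)
    (hi : ∀ p ∈ Rel U x y u, p = 0) (v : ℕ → ℤ) (ℓ : ℕ → ℕ) (K' : ℕ)
    (hv : ∀ᶠ n in (U : Filter ℕ), |v n| ≤ 2 ^ ℓ n ∧ ℓ n ≤ K' * n)
    (h : ∃ q : MvPolynomial σ ℚ, q ≠ 0 ∧ ∃ p : κ → MvPolynomial σ ℚ, ∀ᶠ n in (U : Filter ℕ),
      ev (x n) (y n) q * v n = ∑ s, ev (x n) (y n) (p s) * u n s) :
    ∃ q : MvPolynomial σ ℚ, q ≠ 0 ∧ ∃ (p : κ → MvPolynomial σ ℚ) (m m' : ℕ → ℤ),
      ∀ᶠ n in (U : Filter ℕ), ev (x n) (y n) q * v n = ∑ s, ev (x n) (y n) (p s) * u n s ∧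
        (∀ a ∈ q.support, m n ≤ weight (x n) a ∧ m' n ≤ weight (y n) a ∧
          weight (x n) a + weight (y n) a ≤ m n + m' n + 4 * n) ∧
        ∀ s, ∀ a ∈ (p s).support, m n ≤ weight (x n) a ∧ m' n ≤ weight (y n) a ∧
          weight (x n) a + weight (y n) a ≤ m n + m' n + 4 * n + ℓ n := by
  obtain ⟨q, hq, p, hp⟩ := h
  obtain ⟨Y, hY, hz, m, m', H⟩ := gain U hU x y hs (K + K' + 2) (hx.mono fun n hn i =>
      ⟨(hn i).1.trans (by gcongr; omega), (hn i).2.trans (by gcongr; omega)⟩)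
    (fun n (o : Option κ) => o.elim (v n) (u n)) (fun n o => 2 ^ o.elim (ℓ n) (lam n)) (by
      filter_upwards [hu, hv] with n h1 h2 o
      refine ⟨?_, one_le_pow₀ (by norm_num), ?_⟩
      · cases o with
        | none => exact_mod_cast h2.1
        | some t => exact_mod_cast h1.1 t
      · have b1 : o.elim (ℓ n) (lam n) ≤ (K + K' + 2) * n := by
          cases o with
          | none => exact h2.2.trans (by nlinarith)
          | some t =>
            exact ((Finset.single_le_sum (fun _ _ => Nat.zero_le _) (Finset.mem_univ t)).trans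
              h1.2).trans (by nlinarith)
        refine (pow_le_pow_right₀ (by norm_num) b1).trans ?_
        rw [← Nat.cast_mul, ← mul_one (((K + K' + 2) * n : ℕ) : ℝ), exp_nat_mul]
        gcongr
        linarith [add_one_le_exp (1 : ℝ)]) none (by
      intro Y hY h0
      have := hi (fun s => Y (some s)) (by
        filter_upwards [hY] with n hn
        simpa [h0] using hn)
      funext o
      cases o with
      | none => exact h0
      | some t => exact congrFun this t) (fun o => o.elim q fun s => -p s) (by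
      filter_upwards [hp] with n hn
      simp [hn]) hq
  refine ⟨Y none, hz, fun s => -Y (some s), m, m', ?_⟩
  filter_upwards [hY, H, hu] with n h1 h2 h3
  have key : ∀ o, ∀ a ∈ (Y o).support, weight (x n) a + weight (y n) a + o.elim (ℓ n) (lam n) ≤
      m n + m' n + 4 * n + ℓ n := by
    intro o a ha
    obtain ⟨b1, b2, b3⟩ := h2 o a ha
    obtain ⟨i, hi⟩ := Int.le.dest b1
    obtain ⟨j, hj⟩ := Int.le.dest b2
    rw [← hi, ← hj, add_sub_cancel_left, add_sub_cancel_left, zpow_natCast, zpow_natCast,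
      Finset.prod_pow_eq_pow_sum, Fintype.sum_option] at b3
    have b4 : (2 : ℝ) ^ (o.elim (ℓ n) (lam n) + (i + j)) ≤ 2 ^ (2 * n + (ℓ n + 2 * n)) := by
      rw [pow_add, pow_add, pow_add _ (2 * n)]
      refine le_trans ?_ (b3.trans (mul_le_mul (by simpa using exp_le_pow le_rfl n)
        (pow_le_pow_right₀ (by norm_num) (by simpa using h3.2)) (by positivity) (by positivity)))
      gcongr
      norm_num
    have := (pow_le_pow_iff_right₀ (by norm_num)).1 b4
    omega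
  refine ⟨?_, fun a ha => ⟨(h2 _ a ha).1, (h2 _ a ha).2.1, by simpa using key _ a ha⟩,
    fun s a ha => ?_⟩
  · simpa [add_eq_zero_iff_eq_neg] using h1
  · rw [MvPolynomial.support_neg] at ha
    have := key _ a ha
    exact ⟨(h2 _ a ha).1, (h2 _ a ha).2.1, by omega⟩

theorem small0 (hU : (U : Filter ℕ) ≤ atTop) (hs : Sep U x y) (K : ℕ)
    (hx : ∀ᶠ n : ℕ in (U : Filter ℕ), ∀ i, |x n i| ≤ K * n ∧ |y n i| ≤ K * n) (lam : ℕ → κ → ℕ)
    (hu : ∀ᶠ n in (U : Filter ℕ), (∀ t, |u n t| ≤ 2 ^ lam n t) ∧ ∑ t, lam n t ≤ 2 * n)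
    (hi : ∀ p ∈ Rel U x y u, p = 0) (z : ℕ → ℤ) (K' : ℕ)
    (hz : ∀ᶠ n in (U : Filter ℕ), |z n| ≤ 2 ^ (K' * n))
    (h : Dg U x y u (fun n => z n) fun n => 7 * n) :
    ∀ᶠ n in (U : Filter ℕ), |z n| ≤ 2 ^ (25 * n) := by
  obtain ⟨q', hq', p', hp'⟩ := h
  obtain ⟨q, hq, p, m, m', H⟩ := gain' hU hs K hx lam hu hi z (fun n => K' * n) K'
    (hz.mono fun n hn => ⟨hn, le_rfl⟩) ⟨q', hq', p', hp'.mono fun n hn => hn.1⟩
  have e := congrFun (hi (fun s => q' * p s - q * p' s) (by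
    filter_upwards [hp', H] with n h1 h2
    simp only [map_sub, map_mul, sub_mul, Finset.sum_sub_distrib, mul_assoc, ← Finset.mul_sum,
      ← h1.1, ← h2.1]
    ring))
  simp only [Pi.zero_apply, sub_eq_zero] at e
  obtain ⟨d, hd0, hd⟩ := ev_low q
  filter_upwards [hp', H, hu, hs.ne hq, hU ((tendsto_pow_atTop_atTop_of_one_lt
    (one_lt_two (α := ℚ))).eventually_ge_atTop
      (d * ∑ s, ∑ a ∈ (p s).support, |coeff a (p s)|))] with n h1 h2 h3 h4 h5
  have h6 : d * ∑ s, ∑ a ∈ (p s).support, |coeff a (p s)| ≤ 2 ^ n := h5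
  have b1 := hd _ _ _ _ (fun a ha => ⟨(h2.2.1 a ha).1, (h2.2.1 a ha).2.1⟩) h4
  have b2 : ∀ s, |ev (x n) (y n) (p s) * u n s| ≤ (∑ a ∈ (p s).support, |coeff a (p s)|) *
      (2 ^ m n * 3 ^ m' n * 3 ^ (11 * n) * 2 ^ (2 * n)) := by
    intro s
    rw [abs_mul, ← mul_assoc]
    refine mul_le_mul (ev_up _ _ _ _ _ _ fun a ha => ⟨(h2.2.2 s a ha).1, (h2.2.2 s a ha).2.1, ?_⟩)
      ?_ (abs_nonneg _) (by positivity)
    · obtain ⟨a1, c1, c2⟩ := dg_eq (x n + y n) hq
      obtain ⟨a2, -, c3⟩ := dg_eq (x n + y n) hq'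
      have c4 := congrArg (dg (x n + y n)) (e s)
      rw [dg_mul, dg_mul] at c4
      have c5 := (add_le_add le_rfl (le_dg (x n + y n) ha)).trans
        (c4.le.trans (add_le_add le_rfl (h1.2 s)))
      have c6 := (h2.2.1 a1 c1).2.2
      rw [c2, c3, weight_add' _ _ a, weight_add' _ _ a1] at c5
      norm_cast at c5
      omega
    · have : |u n s| ≤ 2 ^ (2 * n) := (h3.1 s).trans (pow_le_pow_right₀ (by norm_num)
        ((Finset.single_le_sum (fun _ _ => Nat.zero_le _) (Finset.mem_univ s)).trans h3.2))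
      exact_mod_cast this
  have b3 := (Finset.abs_sum_le_sum_abs _ _).trans (Finset.sum_le_sum fun s (_ : s ∈ Finset.univ) => b2 s)
  rw [← h2.1, ← Finset.sum_mul, abs_mul] at b3
  have b4 : (3 : ℚ) ^ (11 * n) ≤ 2 ^ (22 * n) := by
    rw [show 22 * n = 2 * (11 * n) by ring, pow_mul 2 2]
    gcongr
    norm_num
  have b5 : (2 ^ m n * 3 ^ m' n : ℚ) * |(z n : ℚ)| ≤ (2 ^ m n * 3 ^ m' n) * 2 ^ (25 * n) :=
    calc (2 ^ m n * 3 ^ m' n : ℚ) * |(z n : ℚ)| ≤ d * (|ev (x n) (y n) q| * |(z n : ℚ)|) := by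
          rw [← mul_assoc]
          gcongr
      _ ≤ _ := mul_le_mul_of_nonneg_left b3 hd0
      _ ≤ 2 ^ n * (2 ^ m n * 3 ^ m' n * 2 ^ (22 * n) * 2 ^ (2 * n)) := by
          rw [← mul_assoc]
          gcongr
      _ = _ := by ring
  exact_mod_cast le_of_mul_le_mul_left b5 (by positivity)

theorem small (hU : (U : Filter ℕ) ≤ atTop) {J : Type} [Fintype J] (u : ℕ → κ → ℤ)
    (lam : ℕ → κ → ℕ)
    (hu : ∀ᶠ n in (U : Filter ℕ), (∀ t, |u n t| ≤ 2 ^ lam n t) ∧ ∑ t, lam n t ≤ 2 * n)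
    (z : ℕ → ℤ) (K' : ℕ) (hz : ∀ᶠ n in (U : Filter ℕ), |z n| ≤ 2 ^ (K' * n)) (τ : J → κ)
    (c : J → ℚ) (ξ η : J → ℕ → ℤ) (hξ : ∀ j, ξ j ∈ LinB U) (hη : ∀ j, η j ∈ LinB U)
    (h : ∀ᶠ n in (U : Filter ℕ), (∀ j, ξ j n + η j n ≤ 0) ∧
      (z n : ℚ) = ∑ j, c j * (2 ^ ξ j n * 3 ^ η j n) * u n (τ j)) :
    ∀ᶠ n in (U : Filter ℕ), |z n| ≤ 2 ^ (25 * n) := by
  classical
  obtain ⟨σ, _, x, y, K, α, β, C, C', hs, hx, hC⟩ := lattice2 U ξ η hξ hη
  obtain ⟨B, hB, hmax⟩ := (Finset.univ.filter fun B : Finset κ =>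
    ∀ p ∈ Rel U x y fun n (s : B) => u n s, p = 0).exists_max_image Finset.card
    ⟨∅, by simpa using fun _ _ => Subsingleton.elim _ _⟩
  have hi := (Finset.mem_filter.1 hB).2
  have hu' : ∀ᶠ n in (U : Filter ℕ), (∀ t : B, |u n t| ≤ 2 ^ lam n t) ∧
      ∑ t : B, lam n t ≤ 2 * n := by
    filter_upwards [hu] with n hn
    refine ⟨fun t => hn.1 t, le_trans ?_ hn.2⟩
    rw [Finset.sum_coe_sort B (lam n)]
    exact Finset.sum_le_sum_of_subset (Finset.subset_univ _)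
  have h1 : ∀ t, Dg U x y (fun n (s : B) => u n s) (fun n => u n t) fun n => 6 * n := by
    intro t
    have b0 : ∀ᶠ n in (U : Filter ℕ), |u n t| ≤ 2 ^ lam n t ∧ lam n t ≤ 2 * n :=
      hu.mono fun n hn => ⟨hn.1 t,
        (Finset.single_le_sum (fun _ _ => Nat.zero_le _) (Finset.mem_univ t)).trans hn.2⟩
    obtain ⟨q, hq, p, m, m', H⟩ := gain' hU hs K hx (fun n (s : B) => lam n s) hu' hi
      (fun n => u n t) (fun n => lam n t) 2 b0 (by
        by_cases ht : t ∈ B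
        · exact ⟨1, one_ne_zero, Pi.single ⟨t, ht⟩ 1, Eventually.of_forall fun n => by
            rw [Finset.sum_eq_single ⟨t, ht⟩ (fun s _ h => by simp [h]) (by simp)]
            simp⟩
        · by_contra hcon
          refine (hmax (insert t B) (Finset.mem_filter.2 ⟨Finset.mem_univ _, fun p hp => ?_⟩)).not_gt
            (by rw [Finset.card_insert_of_notMem ht]; omega)
          have b1 : ∀ᶠ n in (U : Filter ℕ), ev (x n) (y n) (p ⟨t, Finset.mem_insert_self _ _⟩) *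
              u n t = ∑ s : B, ev (x n) (y n) (-p ⟨s, Finset.mem_insert_of_mem s.2⟩) * u n s := by
            filter_upwards [hp] with n hn
            rw [Finset.univ_eq_attach, Finset.attach_insert, Finset.sum_insert (by
              simp only [Finset.mem_image, Subtype.mk.injEq, not_exists, not_and]
              exact fun s _ e => ht (e ▸ s.2)), Finset.sum_image fun s _ s' _ e =>
                Subtype.ext (by simpa using e)] at hn
            simpa [add_eq_zero_iff_eq_neg] using hn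
          have b2 : p ⟨t, Finset.mem_insert_self _ _⟩ = 0 := by
            by_contra b2
            exact hcon ⟨_, b2, _, b1⟩
          have b3 := hi (fun s => -p ⟨s, Finset.mem_insert_of_mem s.2⟩) (by
            filter_upwards [b1] with n hn
            rw [← hn, b2, map_zero, zero_mul])
          funext ⟨s, hs⟩
          rcases Finset.mem_insert.1 hs with rfl | h
          · exact b2
          · exact neg_eq_zero.1 (congrFun b3 ⟨s, h⟩))
    refine ⟨q, hq, p, ?_⟩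
    filter_upwards [H, b0] with n b1 b2
    refine ⟨b1.1, fun s => dg_le.2 fun a ha => ?_⟩
    obtain ⟨a1, c1, c2⟩ := dg_eq (x n + y n) hq
    have c3 := b1.2.1 a1 c1
    have c4 := b1.2.2 s a ha
    rw [c2, weight_add', weight_add']
    norm_cast
    omega
  refine small0 hU hs K hx _ hu' hi z K' hz ?_
  obtain ⟨q, hq, p, hp⟩ := Dg.sum Finset.univ fun j => (h1 (τ j)).mon (k' := fun n => 7 * n)
    (ξ := ξ j) (η := η j) (c j) (α j) (β j) (C j) (C' j) (by
      filter_upwards [h, hC, hU (eventually_ge_atTop (C j + C' j).natAbs)] with n b1 b2 b3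
      have b4 : (C j + C' j).natAbs ≤ n := b3
      have b5 := b1.1 j
      exact ⟨b2 j, by omega⟩)
  refine ⟨q, hq, p, ?_⟩
  filter_upwards [hp, h] with n b1 b2
  rwa [b2.2]

end Pool.Agent.MP_1e211b_nt.H73
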