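import Mathlib
import Pool.Agent.MP_60c1b5_an.H73.Defs

set_option autoImplicit false

/-!
Words cut into atoms, and the additive term of the 3x+1 iterate along a word.
-/

namespace Pool.Agent.MP_1e211b_nt.H73

open Pool.Agent.MP_60c1b5_an.H73

/-- the additive term along a word -/
def ph : List ℕ → ℤ
  | [] => 0
  | d :: w => d * 3 ^ w.sum + 2 * ph w

theorem ph_append (u v : List ℕ) : ph (u ++ v) = 3 ^ v.sum * ph u + 2 ^ u.length * ph v := by
  induction u with
  | nil => simp [ph]
  | cons d u ih =>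
    simp only [List.cons_append, ph, ih, List.sum_append, List.length_cons]
    ring

theorem sum_le_length {w : List ℕ} (h : ∀ d ∈ w, d ≤ 1) : w.sum ≤ w.length := by
  simpa using List.sum_le_card_nsmul w 1 h

theorem ph_bound (w : List ℕ) (h : ∀ d ∈ w, d ≤ 1) : |ph w| ≤ 2 ^ (2 * w.length) := by
  rw [pow_mul]
  induction w with
  | nil => simp [ph]
  | cons d w ih =>
    have h0 : ∀ x ∈ w, x ≤ 1 := fun x hx => h x (List.mem_cons_of_mem _ hx)
    have h1 := abs_le.1 (ih h0)
    have h3 : (d : ℤ) ≤ 1 := by exact_mod_cast h d List.mem_cons_self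
    have h4 : (3 : ℤ) ^ w.sum ≤ (2 ^ 2) ^ w.length :=
      (pow_le_pow_right₀ (by norm_num) (sum_le_length h0)).trans (by gcongr; norm_num)
    have h5 : (0 : ℤ) ≤ d * 3 ^ w.sum := by positivity
    have h6 : (d : ℤ) * 3 ^ w.sum ≤ 1 * 3 ^ w.sum := by gcongr
    simp only [ph, List.length_cons, pow_succ _ w.length, abs_le]
    constructor <;> linarith

/-- `u` is a concatenation of at most `k` members of `G` -/
def Cat (G : List (List ℕ)) (k : ℕ) (u : List ℕ) : Prop :=
  ∃ l : List (List ℕ), l.length ≤ k ∧ (∀ g ∈ l, g ∈ G) ∧ l.flatten = u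

theorem Cat.trans {G G' : List (List ℕ)} {k k' : ℕ} {u : List ℕ} (h : Cat G k u)
    (h' : ∀ g ∈ G, Cat G' k' g) : Cat G' (k * k') u := by
  obtain ⟨l, h1, h2, rfl⟩ := h
  induction l generalizing k with
  | nil => exact ⟨[], by simp, by simp, rfl⟩
  | cons g l ih =>
    obtain ⟨l1, a1, a2, a3⟩ := ih le_rfl fun x hx => h2 x (List.mem_cons_of_mem _ hx)
    obtain ⟨l2, b1, b2, b3⟩ := h' g (h2 g List.mem_cons_self)
    refine ⟨l2 ++ l1, ?_, fun x hx => (List.mem_append.1 hx).elim (b2 x) (a2 x), by simp [a3, b3]⟩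
    rw [List.length_cons] at h1
    rw [List.length_append]
    nlinarith

theorem cut (G : List (List ℕ)) (a b : List ℕ) (h : G.flatten = a ++ b) :
    ∃ G1 G2 : List (List ℕ), G1.flatten = a ∧ G2.flatten = b ∧
      G1.length + G2.length ≤ G.length + 1 ∧ ∀ g ∈ G, Cat (G1 ++ G2) 2 g := by
  rcases List.flatten_eq_append_iff.1 h with ⟨as, bs, rfl, rfl, rfl⟩ |
    ⟨as, bs, c, cs, ds, rfl, rfl, rfl⟩
  · exact ⟨as, bs, rfl, rfl, by simp, fun g hg => ⟨[g], by simp, by simpa using hg, by simp⟩⟩
  · refine ⟨as ++ [bs], (c :: cs) :: ds, by simp, by simp, by simp; omega, fun g hg => ?_⟩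
    simp only [List.mem_append, List.mem_cons] at hg
    rcases hg with hg | rfl | hg
    · exact ⟨[g], by simp, by simp [hg], by simp⟩
    · exact ⟨[bs, c :: cs], by simp, by simp, by simp⟩
    · exact ⟨[g], by simp, by simp [hg], by simp⟩

theorem refine_cuts (S : ℕ) : ∃ S' : ℕ, ∀ (D : List ℕ) (ps : List (List ℕ)), ps.length ≤ S →
    (∀ u ∈ ps, u <:+: D) → ∃ G : List (List ℕ), G.flatten = D ∧ G.length ≤ S' ∧
      ∀ u ∈ ps, Cat G S' u := by
  induction S with
  | zero =>
    refine ⟨1, fun D ps h _ => ⟨[D], by simp, by simp, ?_⟩⟩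
    simp [List.length_eq_zero_iff.1 (Nat.le_zero.1 h)]
  | succ S ih =>
    obtain ⟨S', ih⟩ := ih
    refine ⟨S' * 2 * 2 + (S' + 2), fun D ps h hu => ?_⟩
    cases ps with
    | nil => exact ⟨[D], by simp, by simp; omega, by simp⟩
    | cons u ps =>
      obtain ⟨G, h1, h2, h3⟩ := ih D ps (by simpa using h) fun v hv => hu v (List.mem_cons_of_mem _ hv)
      obtain ⟨a, b, rfl⟩ := hu u List.mem_cons_self
      obtain ⟨G1, G2, a1, a2, a3, a4⟩ := cut G _ _ h1
      obtain ⟨G3, G4, b1, b2, b3, b4⟩ := cut G1 _ _ a1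
      refine ⟨G3 ++ G4 ++ G2, by simp [a2, b1, b2], by simp; omega, fun v hv => ?_⟩
      rcases List.mem_cons.1 hv with rfl | hv
      · exact ⟨G4, by omega, fun g hg => by simp [hg], b2⟩
      · obtain ⟨l, c1, c2⟩ := ((h3 v hv).trans a4).trans (G' := G3 ++ G4 ++ G2) (k' := 2) (by
          intro g hg
          rcases List.mem_append.1 hg with hg | hg
          · obtain ⟨l, c1, c2, c3⟩ := b4 g hg
            exact ⟨l, c1, fun x hx => List.mem_append_left _ (c2 x hx), c3⟩
          · exact ⟨[g], by simp, by simp [hg], by simp⟩)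
        exact ⟨l, by omega, c2⟩

theorem cat (S : ℕ) : ∃ S' : ℕ, ∀ (w : List ℕ) (n : ℕ), Parse w n S → (∀ d ∈ w, d ≤ 1) →
    ∃ G : List (List ℕ), G.length ≤ S' ∧ G.flatten.length ≤ n ∧ (∀ g ∈ G, ∀ d ∈ g, d ≤ 1) ∧
      Cat G S' w := by
  obtain ⟨S', h⟩ := refine_cuts S
  refine ⟨S' + S * S', ?_⟩
  rintro _ n ⟨D, hD, ps, h1, h2, rfl⟩ hw
  obtain ⟨G, a1, a2, a3⟩ := h (D.map (min · 1)) ps h1 fun u hu => by
    have := (h2 u hu).map (min · 1)
    rwa [List.map_congr_left (g := id), List.map_id] at this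
    exact fun d hd => min_eq_left (hw d (List.mem_flatten.2 ⟨u, hu, hd⟩))
  refine ⟨G, by omega, by simpa [a1] using hD, fun g hg d hd => ?_, ?_⟩
  · obtain ⟨x, -, rfl⟩ := List.mem_map.1 (a1 ▸ List.mem_flatten.2 ⟨g, hg, hd⟩)
    exact min_le_right _ _
  · obtain ⟨l, c1, c2⟩ := Cat.trans ⟨ps, h1, fun _ h => h, rfl⟩ a3
    exact ⟨l, by omega, c2⟩

theorem sum_getD (m : ℕ) : ∀ G : List (List ℕ), G.length ≤ m →
    ∑ t : Fin m, (G.getD t []).length = G.flatten.length := by
  induction m with
  | zero =>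
    intro G h
    simp [List.length_eq_zero_iff.1 (Nat.le_zero.1 h)]
  | succ m ih =>
    intro G h
    cases G with
    | nil => simp
    | cons g G =>
      rw [Fin.sum_univ_succ, List.flatten_cons, List.length_append, ← ih G (by simpa using h)]
      simp

theorem ph_flatten {κ : Type} (g : κ → List ℕ) (t0 : κ) (h0 : g t0 = []) (S : ℕ) :
    ∀ l : List (List ℕ), l.length ≤ S → (∀ u ∈ l, ∃ t, g t = u) → (∀ d ∈ l.flatten, d ≤ 1) →
      ∃ (τ : Fin S → κ) (ξ η : Fin S → ℕ), (∀ j, ξ j + η j ≤ l.flatten.length) ∧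
        ph l.flatten = ∑ j, 2 ^ ξ j * 3 ^ η j * ph (g (τ j)) := by
  induction S with
  | zero =>
    intro l h _ _
    obtain rfl := List.length_eq_zero_iff.1 (Nat.le_zero.1 h)
    exact ⟨Fin.elim0, 0, 0, by simp, by simp [ph]⟩
  | succ S ih =>
    intro l h hu hd
    cases l with
    | nil => exact ⟨fun _ => t0, 0, 0, by simp, by simp [ph, h0]⟩
    | cons u l =>
      have hd' : ∀ d ∈ l.flatten, d ≤ 1 := fun d h => hd d (List.mem_append_right _ h)
      obtain ⟨τ, ξ, η, h1, h2⟩ := ih l (by simpa using h)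
        (fun v hv => hu v (List.mem_cons_of_mem _ hv)) hd'
      obtain ⟨t, rfl⟩ := hu u List.mem_cons_self
      refine ⟨Fin.cons t τ, Fin.cons 0 fun j => (g t).length + ξ j, Fin.cons l.flatten.sum η,
        ?_, ?_⟩
      · rw [List.flatten_cons, List.length_append]
        refine Fin.cases ?_ fun j => ?_
        · have := sum_le_length hd'
          simp only [Fin.cons_zero]
          omega
        · have := h1 j
          simp only [Fin.cons_succ]
          omega
      · rw [Fin.sum_univ_succ, List.flatten_cons, ph_append, h2, Finset.mul_sum]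
        simp only [Fin.cons_zero, Fin.cons_succ, pow_zero, one_mul, pow_add, mul_assoc]

theorem exists_repeat {G : List (List ℕ)} {S n : ℕ} (d : ℕ → ℕ) (hn : 1 ≤ n)
    (hG : G.flatten.length ≤ n) (h : Cat G S ((List.range (2 * n)).map d)) :
    ∃ i j L : ℕ, i < j ∧ j ≤ 2 * n ∧ n ≤ (S + 1) * L ∧ ∀ k < L, d (i + k) = d (j + k) := by
  obtain ⟨l, h1, h2, h3⟩ := h
  have key : ∀ p g s : List ℕ, l.flatten = p ++ (g ++ s) →
      p.length ≤ 2 * n ∧ ∀ k < g.length, some (d (p.length + k)) = g[k]? := by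
    intro p g s e
    rw [h3] at e
    have e1 := congrArg List.length e
    simp only [List.length_map, List.length_range, List.length_append] at e1
    refine ⟨by omega, fun k hk => ?_⟩
    have e2 := congrArg (·[p.length + k]?) e
    simpa [List.getElem?_append_right, List.getElem?_append_left hk,
      List.getElem?_range (by omega : p.length + k < 2 * n)] using e2
  by_cases hd : (l.filter fun g => n ≤ (S + 1) * g.length).Nodup
  · exfalso
    obtain ⟨l', a1, a2⟩ := List.subperm_of_subset hd fun g hg => h2 g (List.mem_of_mem_filter hg)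
    have a3 := (List.filter_append_perm (fun g => n ≤ (S + 1) * g.length) l).flatten.length_eq
    have a4 := a2.flatten.length_le
    rw [a1.flatten.length_eq] at a4
    have a5 := List.sum_le_card_nsmul
      ((l.filter fun g => !decide (n ≤ (S + 1) * g.length)).map fun g => (S + 1) * g.length) n (by
        intro x hx
        obtain ⟨g, hg, rfl⟩ := List.mem_map.1 hx
        have := (List.mem_filter.1 hg).2
        simp only [Bool.not_eq_eq_eq_not, Bool.not_true, decide_eq_false_iff_not] at this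
        omega)
    have a6 := (List.length_filter_le (fun g => !decide (n ≤ (S + 1) * g.length)) l).trans h1
    rw [List.sum_map_mul_left, List.length_map, smul_eq_mul] at a5
    rw [h3, List.flatten_append, List.length_append, List.length_map, List.length_range,
      List.length_flatten (L := l.filter fun g => !decide _)] at a3
    have a7 := Nat.mul_le_mul_right n a6
    nlinarith
  · obtain ⟨g, hg⟩ := not_forall_not.1 (List.nodup_iff_sublist.not.1 hd)
    have a1 : n ≤ (S + 1) * g.length := by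
      simpa using (List.mem_filter.1 (hg.subset List.mem_cons_self)).2
    obtain ⟨r1, r2, rfl, a2, a3⟩ := List.cons_sublist_iff.1 (hg.trans List.filter_sublist)
    obtain ⟨p1, p2, rfl⟩ := List.append_of_mem a2
    obtain ⟨p3, p4, rfl⟩ := List.append_of_mem (List.singleton_sublist.1 a3)
    have b1 := key p1.flatten g (p2.flatten ++ (p3 ++ g :: p4).flatten) (by simp)
    have b2 := key (p1.flatten ++ g ++ p2.flatten ++ p3.flatten) g p4.flatten (by simp)
    refine ⟨_, _, g.length, ?_, b2.1, a1, fun k hk =>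
      Option.some_injective _ ((b1.2 k hk).trans (b2.2 k hk).symm)⟩
    have : 0 < g.length := Nat.pos_of_ne_zero fun e => by simp [e] at a1; omega
    simp only [List.length_append]
    omega

end Pool.Agent.MP_1e211b_nt.H73
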