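import Mathlib
import Pool.Agent.MP_60c1b5_an.H73.LinCx
import Pool.Agent.MP_1e211b_nt.H60.Orbit
import Pool.Agent.MP_1e211b_nt.H73.Small
import Pool.Agent.MP_1e211b_nt.H73.Word

set_option autoImplicit false

/-!
A rational whose parity sequence is compressible has an eventually periodic orbit.
-/

namespace Pool.Agent.MP_1e211b_nt.H73

open Filter Pool.Agent.MP_60c1b5_an.H73 Pool.Agent.MP_1e211b_nt.H60

theorem ph_range (w : ℕ → ℕ) (r : ℕ) : ph ((List.range r).map w) = pp w r := by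
  induction r with
  | zero => rfl
  | succ r ih =>
    rw [List.range_succ, List.map_append, ph_append, ih, pp]
    simp [ph, mul_comm]

theorem par_map_le (α : ℚ) (l : List ℕ) : ∀ d ∈ l.map (par α), d ≤ 1 := by
  intro d hd
  obtain ⟨i, -, rfl⟩ := List.mem_map.1 hd
  exact par_le_one α i

theorem parse_prefix (d : ℕ → ℕ) {i j n S : ℕ} (hij : i ≤ j) (h : Parse ((List.range j).map d) n S) :
    Parse ((List.range i).map d) n S := by
  obtain ⟨D, hD, ps, h1, h2, h3⟩ := h
  obtain ⟨k, rfl⟩ := Nat.exists_eq_add_of_le hij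
  rw [List.range_add, List.map_append] at h3
  rcases List.flatten_eq_append_iff.1 h3 with ⟨as, bs, rfl, e, -⟩ |
    ⟨as, bs, c, cs, ds, rfl, e, -⟩
  · exact ⟨D, hD, as, le_trans (by simp) h1, fun u hu => h2 u (by simp [hu]), e.symm⟩
  · refine ⟨D, hD, as ++ [bs], le_trans (by simp) h1, fun u hu => ?_, by simp [e]⟩
    rcases List.mem_append.1 hu with hu | hu
    · exact h2 u (by simp [hu])
    · rw [List.mem_singleton.1 hu]
      exact (List.prefix_append bs (c :: cs)).isInfix.trans (h2 _ (by simp))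

theorem parse_length {w : List ℕ} {n S : ℕ} (h : Parse w n S) : w.length ≤ S * n := by
  obtain ⟨D, hD, ps, h1, h2, rfl⟩ := h
  rw [List.length_flatten]
  refine (List.sum_le_card_nsmul _ n fun x hx => ?_).trans (by simpa using Nat.mul_le_mul_right n h1)
  obtain ⟨u, hu, rfl⟩ := List.mem_map.1 hx
  exact (h2 u hu).length_le.trans hD

theorem growth (α : ℚ) (hα : Odd α.den) (S : ℕ) (U : Ultrafilter ℕ) (hU : (U : Filter ℕ) ≤ atTop)
    (r : ℕ → ℕ) (h : ∀ᶠ n in (U : Filter ℕ), Parse ((List.range (r n)).map (par α)) n S) :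
    ∀ᶠ n in (U : Filter ℕ), |T^[r n] α| ≤ 2 ^ (25 * n) := by
  have hr : ∀ᶠ n in (U : Filter ℕ), r n ≤ S * n := h.mono fun n hn => by simpa using parse_length hn
  obtain ⟨S', hS⟩ := cat S
  choose z hz hz' using exists_int_orbit α hα
  have hex : ∀ n, ∃ (g : Fin (S' + 1) → List ℕ) (τ : Fin S' → Fin (S' + 1)) (ξ η : Fin S' → ℕ),
      Parse ((List.range (r n)).map (par α)) n S →
        (∀ t, ∀ d ∈ g t, d ≤ 1) ∧ ∑ t, (g t).length ≤ n ∧ (∀ j, ξ j + η j ≤ r n) ∧
          (pp (par α) (r n) : ℤ) = ∑ j, 2 ^ ξ j * 3 ^ η j * ph (g (τ j)) := by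
    intro n
    by_cases hn : Parse ((List.range (r n)).map (par α)) n S
    · have hw := par_map_le α (List.range (r n))
      obtain ⟨G, a1, a2, a3, l, a4, a5, a6⟩ := hS _ _ hn hw
      obtain ⟨τ, ξ, η, b1, b2⟩ := ph_flatten (fun t : Fin (S' + 1) => G.getD t []) (Fin.last _)
        (List.getD_eq_default _ _ a1) S' l a4 (by
          intro u hu
          obtain ⟨i, hi, rfl⟩ := List.getElem_of_mem (a5 u hu)
          exact ⟨⟨i, by omega⟩, List.getD_eq_getElem _ _ hi⟩) (a6 ▸ hw)
      refine ⟨_, τ, ξ, η, fun _ => ⟨fun t d hd => ?_, (sum_getD _ G (by omega)).trans_le a2,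
        by simpa [a6] using b1, by rw [← b2, a6, ph_range]⟩⟩
      by_cases ht : (t : ℕ) < G.length
      · rw [List.getD_eq_getElem _ _ ht] at hd
        exact a3 _ (List.getElem_mem ht) d hd
      · rw [List.getD_eq_default _ _ (not_lt.1 ht)] at hd
        simp at hd
    · exact ⟨fun _ => [], fun _ => 0, 0, 0, fun h => absurd h hn⟩
  choose g τ ξ η H using hex
  have H' : ∀ᶠ n in (U : Filter ℕ), _ := h.mono H
  obtain ⟨τ0, hτ⟩ := Ultrafilter.eventually_exists_iff.1
    (Eventually.of_forall (f := (U : Filter ℕ)) fun n => (⟨τ n, rfl⟩ : ∃ τ0, τ n = τ0))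
  have hσ : ∀ k, ∑ i ∈ Finset.range k, par α i ≤ k := fun k => by
    simpa using Finset.sum_le_card_nsmul (Finset.range k) (par α) 1 fun i _ => par_le_one α i
  have lin : ∀ e : ℕ → ℕ, (∀ᶠ n in (U : Filter ℕ), e n ≤ r n) → (fun n => (e n : ℤ)) ∈ LinB U :=
    fun e he => ⟨S, (he.and hr).mono fun n hn => by
      rw [Nat.abs_cast]
      exact_mod_cast hn.1.trans hn.2⟩
  have l0 := lin _ (Eventually.of_forall fun _ => le_rfl)
  have key := small (κ := Option (Fin (S' + 1))) (J := Option (Fin S')) hU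
    (fun n o => o.elim 1 fun t => ph (g n t)) (fun n o => o.elim 0 fun t => 2 * (g n t).length) (by
      filter_upwards [H'] with n hn
      refine ⟨fun o => ?_, ?_⟩
      · cases o with
        | none => simp
        | some t => exact ph_bound _ (hn.1 t)
      · simpa [← Finset.mul_sum] using hn.2.1) (fun n => z (r n)) (S + 1) (by
      filter_upwards [hU ((tendsto_pow_atTop_atTop_of_one_lt (one_lt_two (α := ℤ))).eventually_ge_atTop
        (|α.num| + α.den)), hr] with n hn h2
      have h1 : |α.num| + α.den ≤ 2 ^ n := hn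
      refine ((le_add_of_nonneg_right (by positivity)).trans (hz' _)).trans ?_
      rw [add_mul S, one_mul, pow_add, mul_comm (_ ^ _)]
      gcongr
      norm_num) (Option.map τ0) (fun o => o.elim α.num fun _ => α.den)
    (fun o n => (o.elim 0 (ξ n) : ℕ) - (r n : ℕ))
    (fun o n => (o.elim (∑ i ∈ Finset.range (r n), par α i) (η n) : ℕ))
    (fun o => (LinB U).sub_mem (lin _ (H'.mono fun n hn => by
      cases o with
      | none => exact Nat.zero_le _
      | some j => exact le_trans (Nat.le_add_right _ _) (hn.2.2.1 j))) l0)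
    (fun o => lin _ (H'.mono fun n hn => by
      cases o with
      | none => exact hσ _
      | some j => exact le_trans (Nat.le_add_left _ _) (hn.2.2.1 j))) (by
      filter_upwards [H', hτ] with n h1 h2
      refine ⟨fun o => ?_, ?_⟩
      · cases o with
        | none =>
          have := hσ (r n)
          simp only [Option.elim]
          omega
        | some j =>
          have := h1.2.2.1 j
          simp only [Option.elim]
          omega
      · have b1 := iterate_eq α (r n)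
        have b2 : (pp (par α) (r n) : ℚ) = ∑ j, 2 ^ ξ n j * 3 ^ η n j * (ph (g n (τ0 j)) : ℚ) := by
          exact_mod_cast h2 ▸ h1.2.2.2
        have b3 : (α.den : ℚ) ≠ 0 := by exact_mod_cast α.den_nz
        have b4 : ∀ j, (α.den : ℚ) * (2 ^ ((ξ n j : ℤ) - (r n : ℕ)) * 3 ^ (η n j : ℤ)) *
            (ph (g n (τ0 j)) : ℚ) =
            α.den / 2 ^ (r n) * (2 ^ ξ n j * 3 ^ η n j * (ph (g n (τ0 j)) : ℚ)) := by
          intro j
          rw [zpow_sub₀ (by norm_num), zpow_natCast, zpow_natCast, zpow_natCast]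
          ring
        rw [hz] at b1
        simp only [Fintype.sum_option, Option.elim, Option.map, b4, ← Finset.mul_sum, ← b2]
        rw [zpow_sub₀ (by norm_num), zpow_natCast, zpow_natCast, zpow_natCast, ← α.mul_den_eq_num]
        field_simp at b1 ⊢
        push_cast
        linear_combination b1)
  filter_upwards [key] with n hn
  have h1 : (1 : ℚ) ≤ α.den := by exact_mod_cast α.den_pos
  rw [hz, abs_div, Nat.abs_cast]
  exact (div_le_self (abs_nonneg _) h1).trans (by exact_mod_cast hn)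

theorem eq_of_blocks (α : ℚ) (hα : Odd α.den) (i j L : ℕ)
    (h : ∀ k < L, par α (i + k) = par α (j + k))
    (hs : α.den * (|T^[i] α| + |T^[j] α|) < 2 ^ L) : T^[i] α = T^[j] α := by
  choose z hz _ using exists_int_orbit α hα
  have b3 : (0 : ℚ) < α.den := by exact_mod_cast α.den_pos
  have h1 := iterate_eq (T^[i] α) L
  have h2 := iterate_eq (T^[j] α) L
  rw [pp_congr (w' := par (T^[j] α)) fun k hk => by rw [par_add, par_add, h k hk],
    Finset.sum_congr rfl (g := par (T^[j] α)) fun k hk => by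
      rw [par_add, par_add, h k (Finset.mem_range.1 hk)]] at h1
  generalize ∑ k ∈ Finset.range L, par (T^[j] α) k = s at h1 h2
  generalize pp (par (T^[j] α)) L = s' at h1 h2
  rw [← Function.iterate_add_apply, hz, hz] at h1 h2
  have h3 : (3 : ℤ) ^ s * (z i - z j) = 2 ^ L * (z (L + i) - z (L + j)) := by
    field_simp at h1 h2
    exact_mod_cast (by linear_combination h2 - h1 :
      (3 : ℚ) ^ s * (z i - z j) = 2 ^ L * (z (L + i) - z (L + j)))
  have h4 : (2 : ℤ) ^ L ∣ z i - z j :=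
    (IsCoprime.pow (by decide : IsCoprime (2 : ℤ) 3)).dvd_of_dvd_mul_left ⟨_, h3⟩
  rw [hz, hz, abs_div, abs_div, Nat.abs_cast, ← add_div, mul_div_cancel₀ _ b3.ne'] at hs
  have h5 : |z i| + |z j| < 2 ^ L := by exact_mod_cast hs
  rw [hz, hz, sub_eq_zero.1 (Int.eq_zero_of_abs_lt_dvd h4 ((abs_sub _ _).trans_lt h5))]

theorem final (α : ℚ) (hα : Odd α.den) (S : ℕ)
    (h : ∃ᶠ n in atTop, ∃ i j : ℕ, i < j ∧ Parse ((List.range j).map (par α)) n S ∧
      ∀ t < 26 * n, par α (i + t) = par α (j + t)) :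
    ∃ N p : ℕ, 0 < p ∧ ∀ n, N ≤ n → T^[n + p] α = T^[n] α ∧ par α (n + p) = par α n := by
  obtain ⟨U, hU⟩ := exists_ultrafilter_iff.2 (frequently_iff_neBot.1 h)
  obtain ⟨h1, h2⟩ := le_inf_iff.1 hU
  have hex : ∀ n, ∃ i j : ℕ, (∃ i j : ℕ, i < j ∧ Parse ((List.range j).map (par α)) n S ∧
      ∀ t < 26 * n, par α (i + t) = par α (j + t)) → i < j ∧
      Parse ((List.range j).map (par α)) n S ∧ ∀ t < 26 * n, par α (i + t) = par α (j + t) := by
    intro n
    by_cases e : ∃ i j : ℕ, i < j ∧ Parse ((List.range j).map (par α)) n S ∧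
      ∀ t < 26 * n, par α (i + t) = par α (j + t)
    · obtain ⟨i, j, e⟩ := e
      exact ⟨i, j, fun _ => e⟩
    · exact ⟨0, 0, fun h => absurd h e⟩
  choose i j H using hex
  have H' : ∀ᶠ n in (U : Filter ℕ), _ := Eventually.mono (le_principal_iff.1 h2) H
  obtain ⟨n, a1, a2, a3, a4⟩ := (H'.and
    ((growth α hα S U h1 i (H'.mono fun n hn => parse_prefix _ hn.1.le hn.2.1)).and
    ((growth α hα S U h1 j (H'.mono fun n hn => hn.2.1)).and (h1
      ((tendsto_pow_atTop_atTop_of_one_lt (one_lt_two (α := ℚ))).eventually_gt_atTop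
        (α.den * 2)))))).exists
  have a5 : (α.den * 2 : ℚ) < 2 ^ n := a4
  have e := eq_of_blocks α hα _ _ _ a1.2.2 (
    calc (α.den : ℚ) * (|T^[i n] α| + |T^[j n] α|) ≤ α.den * (2 ^ (25 * n) + 2 ^ (25 * n)) := by
          gcongr
      _ = α.den * 2 * 2 ^ (25 * n) := by ring
      _ < 2 ^ n * 2 ^ (25 * n) := by gcongr
      _ = _ := by ring)
  refine ⟨i n, j n - i n, by omega, fun m hm => ?_⟩
  have : T^[m + (j n - i n)] α = T^[m] α := by
    rw [show m + (j n - i n) = m - i n + j n by omega, Function.iterate_add_apply, ← e,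
      ← Function.iterate_add_apply, Nat.sub_add_cancel hm]
  exact ⟨this, by unfold par; rw [this]⟩

theorem of_compressible (α : ℚ)
    (h : ∀ M : ℕ, ∃ S : ℕ, ∀ᶠ n in atTop, Parse ((List.range (M * n)).map (par α)) n S) :
    ∃ S : ℕ, ∃ᶠ n in atTop, ∃ i j : ℕ, i < j ∧ Parse ((List.range j).map (par α)) n S ∧
      ∀ t < 26 * n, par α (i + t) = par α (j + t) := by
  obtain ⟨S, hS⟩ := h 2
  obtain ⟨S', hc⟩ := cat S
  obtain ⟨S2, h2⟩ := h (2 * ((S' + 1) * 26))
  obtain ⟨n0, hn0⟩ := eventually_atTop.1 hS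
  refine ⟨S2, Eventually.frequently ?_⟩
  filter_upwards [h2, eventually_ge_atTop (n0 + 1)] with n a1 a2
  have a3 : n ≤ (S' + 1) * 26 * n := Nat.le_mul_of_pos_left _ (by omega)
  obtain ⟨G, -, b1, -, b2⟩ := hc _ _ (hn0 ((S' + 1) * 26 * n) (by omega)) (par_map_le α _)
  obtain ⟨i, j, L, c1, c2, c3, c4⟩ := exists_repeat (par α) (by omega) b1 b2
  rw [mul_assoc] at c3 a1
  exact ⟨i, j, c1, parse_prefix _ c2 a1, fun t ht =>
    c4 t (ht.trans_le (Nat.le_of_mul_le_mul_left c3 (by omega)))⟩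

theorem of_complexity (d : ℕ → ℕ) (S : ℕ)
    (h : ∃ᶠ m in atTop, ∃ P : ℕ, m ≤ P ∧ {w | ∃ i, w = (List.range' i m).map d}.encard ≤ P ∧
      {w | ∃ i, w = (List.range' i (234 * P)).map d}.encard ≤ (S * m : ℕ)) :
    ∃ᶠ n in atTop, ∃ i j : ℕ, i < j ∧ Parse ((List.range j).map d) n (S * 3) ∧
      ∀ t < 26 * n, d (i + t) = d (j + t) := by
  refine frequently_atTop.2 fun k => ?_
  obtain ⟨m, hm, P, h1, h2, h3⟩ := frequently_atTop.1 h (k + 2)
  have hfin := Set.finite_of_encard_le_coe h3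
  rw [hfin.encard_eq_coe_toFinset_card, Nat.cast_le] at h3
  obtain ⟨i, j, h4, h5, h6⟩ : ∃ i j, i < j ∧ j ≤ S * m ∧ blk d i (234 * P) = blk d j (234 * P) := by
    obtain ⟨i, hi, j, hj, hne, e⟩ := Finset.exists_ne_map_eq_of_card_lt_of_maps_to
      (s := Finset.range (S * m + 1)) (t := hfin.toFinset) (by simpa using Nat.lt_succ_of_le h3)
      (f := fun i => blk d i (234 * P)) fun i _ => by simpa using ⟨i, rfl⟩
    rw [Finset.mem_range] at hi hj
    rcases lt_or_gt_of_ne hne with h | h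
    · exact ⟨i, j, h, by omega, e⟩
    · exact ⟨j, i, h, by omega, e.symm⟩
  have a1 := Nat.div_mul_le_self P (2 * (m / 2))
  have a2 := Nat.lt_div_mul_add (a := P) (show 0 < 2 * (m / 2) by omega)
  obtain ⟨D, b1, b2⟩ := parse_of_card d (P / (2 * (m / 2)) + 1) (m / 2) j (S * 3) (by omega)
    (h5.trans (by rw [mul_assoc]; exact Nat.mul_le_mul_left _ (by omega))) (by
      refine le_trans (le_trans (Set.encard_le_encard ?_) (Set.encard_image_le
        (List.take (2 * (m / 2))) _)) (h2.trans (Nat.cast_le.2 (by rw [add_mul]; omega)))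
      rintro _ ⟨i, rfl⟩
      refine ⟨_, ⟨i, rfl⟩, ?_⟩
      rw [← List.map_take, List.take_range'_of_length_ge (by omega), blk])
  refine ⟨9 * P, by omega, i, j, h4, ⟨D, b1.trans ?_, by rwa [List.range_eq_range']⟩,
    fun t ht => (blk_eq_iff _ _ _ _).1 h6 t (by omega)⟩
  have a3 : 2 * (m / 2) ≤ P := by omega
  nlinarith

end Pool.Agent.MP_1e211b_nt.H73
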